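import Pool.Agent.Run7.h683.OB.N6

/-!
# One base for all algebraic numbers: final form
-/

set_option autoImplicit false

namespace Run7.h683.OB

open Finset Polynomial Filter Run7.h683.AB

theorem final2 : ∃ d : ℝ, 0 < d ∧ ∀ (D r q L : ℕ), 1 ≤ q → 1 ≤ L → ∀ ε : ℝ, 0 < ε →
    ∀ᶠ B : ℕ in atTop, ({b : ℕ | 0 < b ∧ b ≤ B ∧ ¬ ∀ x : Fin r → ℝ,
      AlgFam D (Real.exp (Real.log b ^ d)) x → ∀ (v : Fin r → Fin L → Fin q) (K : ℕ),
      Real.log b ^ (2 * d) ≤ K → (K : ℝ) ≤ Real.log b ^ (4 * d) →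
      |({s : ℕ | s < K ∧ ∀ (i : Fin r) (t : Fin L),
          q * digit b (x i) (s + (t : ℕ) + 2) / b = v i t}.ncard : ℝ) -
        K / (q : ℝ) ^ (r * L)| ≤ ε * K}.ncard : ℝ) ≤ B * Real.exp (-(Real.log B ^ d)) := by
  classical
  obtain ⟨d, hd0, h⟩ := final
  refine ⟨d, hd0, fun D r q L hq hL ε hε => ?_⟩
  filter_upwards [h D r q L hq hL ε hε] with B hB
  refine le_trans (le_of_eq ?_) hB
  rw [← Set.ncard_coe_finset]
  congr 2
  ext b
  rw [Finset.mem_coe, Finset.mem_filter, Finset.mem_Ioc, Set.mem_setOf_eq, and_assoc]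
  refine and_congr_right fun _ => and_congr_right fun _ => not_congr ?_
  refine forall_congr' fun x => forall_congr' fun _ => forall_congr' fun v =>
    forall_congr' fun K => ?_
  have h1 : {s : ℕ | s < K ∧ ∀ (i : Fin r) (t : Fin L),
          q * digit b (x i) (s + (t : ℕ) + 2) / b = v i t}.ncard =
      occ q L x b K (fun i t => if h : t < L then ((v i ⟨t, h⟩ : Fin q) : ℕ) else 0) := by
    unfold occ
    rw [← Set.ncard_coe_finset]
    congr 1
    ext s
    rw [Finset.mem_coe, Finset.mem_filter, Finset.mem_range, Set.mem_setOf_eq]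
    refine and_congr_right fun _ => ?_
    constructor
    · intro h i t ht
      simp only [dif_pos ht]
      exact h i ⟨t, ht⟩
    · intro h i t
      have := h i t t.2
      simp only [dif_pos t.2] at this
      exact this
  rw [h1]

end Run7.h683.OB
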