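import Pool.Agent.Run7.h683.AB.M6

/-!
# One base for all algebraic numbers: exponential bounds for word counts of random strings
-/

set_option autoImplicit false

namespace Run7.h683.OB

open Finset Run7.h683.AB

/-- functions of disjoint sets of coordinates are independent -/
theorem indep {ι α : Type} [Fintype ι] [DecidableEq ι] [Fintype α] [DecidableEq α] (T : Finset ι)
    (f g : (ι → α) → ℝ) (hf : ∀ w w', (∀ p ∈ T, w p = w' p) → f w = f w')
    (hg : ∀ w w', (∀ p, p ∉ T → w p = w' p) → g w = g w') :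
    (∑ w, f w * g w) * (Fintype.card (ι → α) : ℝ) = (∑ w, f w) * ∑ w, g w := by
  classical
  obtain ⟨σ, hσ⟩ : ∃ σ : (ι → α) × (ι → α) → (ι → α) × (ι → α),
      σ = fun u => (T.piecewise u.1 u.2, T.piecewise u.2 u.1) := ⟨_, rfl⟩
  have hinv : Function.Involutive σ := by
    intro u
    rw [hσ]
    apply Prod.ext
    · funext p
      by_cases hp : p ∈ T
      · simp [hp]
      · simp [hp]
    · funext p
      by_cases hp : p ∈ T
      · simp [hp]
      · simp [hp]
  rw [Finset.sum_mul_sum, ← Finset.sum_product']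
  have h1 : ∑ u ∈ (Finset.univ : Finset (ι → α)) ×ˢ (Finset.univ : Finset (ι → α)),
      f u.1 * g u.2 = ∑ u : (ι → α) × (ι → α), f (σ u).1 * g (σ u).2 := by
    rw [Finset.univ_product_univ]
    exact (Equiv.sum_comp hinv.toPerm (fun u => f u.1 * g u.2)).symm
  rw [h1]
  have h2 : ∀ u : (ι → α) × (ι → α), f (σ u).1 * g (σ u).2 = f u.1 * g u.1 := by
    intro u
    rw [hσ]
    simp only
    congr 1
    · apply hf
      intro p hp
      simp [hp]
    · apply hg
      intro p hp
      simp [hp]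
  simp only [h2]
  rw [← Finset.univ_product_univ, Finset.sum_product]
  simp only [Finset.sum_const, Finset.card_univ, nsmul_eq_mul]
  rw [← Finset.mul_sum, mul_comm]

open Classical in
/-- the centred indicator of a window -/
noncomputable def ff {r N q : ℕ} (L : ℕ) (v : Fin r → ℕ → ℕ) (s : ℕ) (w : Fin r × Fin N → Fin q) :
    ℝ := (if EE L v s w then (1 : ℝ) else 0) - 1 / (q : ℝ) ^ (r * L)

theorem p_bounds (q n : ℕ) (hq : 1 ≤ q) : 0 ≤ 1 / (q : ℝ) ^ n ∧ 1 / (q : ℝ) ^ n ≤ 1 := by
  have hq1 : (1 : ℝ) ≤ q := by exact_mod_cast hq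
  have hqL : (1 : ℝ) ≤ (q : ℝ) ^ n := one_le_pow₀ hq1
  refine ⟨by positivity, ?_⟩
  rw [div_le_one (by positivity)]
  exact hqL

theorem ff_abs {r N q : ℕ} (L : ℕ) (v : Fin r → ℕ → ℕ) (hq : 1 ≤ q) (s : ℕ)
    (w : Fin r × Fin N → Fin q) : |ff L v s w| ≤ 1 := by
  obtain ⟨h0, h1⟩ := p_bounds q (r * L) hq
  unfold ff
  rw [abs_le]
  split_ifs <;> constructor <;> linarith

theorem card_omega (r N q : ℕ) : (Fintype.card (Fin r × Fin N → Fin q) : ℝ) = (q : ℝ) ^ (r * N) := by
  rw [Fintype.card_fun, Fintype.card_prod, Fintype.card_fin, Fintype.card_fin, Fintype.card_fin]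
  push_cast
  rfl

open Classical in
theorem ff_sum {r N q : ℕ} (L : ℕ) (v : Fin r → ℕ → ℕ) (hq : 1 ≤ q)
    (hv : ∀ i, ∀ t < L, v i t < q) (s : ℕ) (hs : s + L ≤ N) :
    ∑ w : Fin r × Fin N → Fin q, ff L v s w = 0 := by
  unfold ff
  rw [Finset.sum_sub_distrib, Finset.sum_boole, Finset.sum_const, nsmul_eq_mul, Finset.card_univ,
    card_omega]
  have h1 := card_E (r := r) (N := N) (q := q) L v hq hv s hs
  have h2 : ((Finset.univ.filter fun w : Fin r × Fin N → Fin q => EE L v s w).card : ℝ) *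
      (q : ℝ) ^ (r * L) = (q : ℝ) ^ (r * N) := by
    exact_mod_cast h1
  have hq0 : (0 : ℝ) < q := by exact_mod_cast hq
  rw [← h2]
  field_simp
  ring

theorem exp_sum_le {r N q : ℕ} (L : ℕ) (v : Fin r → ℕ → ℕ) (hq : 1 ≤ q)
    (hv : ∀ i, ∀ t < L, v i t < q) (s : ℕ) (hs : s + L ≤ N) (lam : ℝ) (hlam : |lam| ≤ 1) :
    ∑ w : Fin r × Fin N → Fin q, Real.exp (lam * ff L v s w) ≤
      (q : ℝ) ^ (r * N) * Real.exp (lam ^ 2) := by
  have h1 : ∀ w : Fin r × Fin N → Fin q, Real.exp (lam * ff L v s w) ≤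
      1 + lam * ff L v s w + lam ^ 2 := by
    intro w
    have hf := ff_abs L v hq s w
    have h2 : |lam * ff L v s w| ≤ 1 := by
      rw [abs_mul]
      have := abs_nonneg lam
      have := abs_nonneg (ff L v s w)
      nlinarith
    have h3 := (abs_le.1 (Real.abs_exp_sub_one_sub_id_le h2)).2
    have h4 : (lam * ff L v s w) ^ 2 ≤ lam ^ 2 := by
      rw [mul_pow]
      have h5 : ff L v s w ^ 2 ≤ 1 := by
        rw [← sq_abs]
        exact pow_le_one₀ (abs_nonneg _) hf
      have := sq_nonneg lam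
      nlinarith
    linarith
  refine (Finset.sum_le_sum fun w _ => h1 w).trans ?_
  rw [Finset.sum_add_distrib, Finset.sum_add_distrib, ← Finset.mul_sum, ff_sum L v hq hv s hs,
    Finset.sum_const, Finset.sum_const, nsmul_eq_mul, nsmul_eq_mul, Finset.card_univ, card_omega]
  have h2 := Real.add_one_le_exp (lam ^ 2)
  have h3 : (0 : ℝ) ≤ (q : ℝ) ^ (r * N) := by positivity
  nlinarith

/-- windows which do not overlap -/
theorem mgf {r N q : ℕ} (L : ℕ) (v : Fin r → ℕ → ℕ) (hq : 1 ≤ q)
    (hv : ∀ i, ∀ t < L, v i t < q) (lam : ℝ) (hlam : |lam| ≤ 1) (S : Finset ℕ)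
    (hS : ∀ s ∈ S, s + L ≤ N) (hSS : ∀ s ∈ S, ∀ s' ∈ S, s ≠ s' → s + L ≤ s' ∨ s' + L ≤ s) :
    ∑ w : Fin r × Fin N → Fin q, Real.exp (lam * ∑ s ∈ S, ff L v s w) ≤
      (q : ℝ) ^ (r * N) * Real.exp (lam ^ 2 * S.card) := by
  classical
  induction S using Finset.induction_on with
  | empty =>
    simp only [Finset.sum_empty, mul_zero, Real.exp_zero, Finset.sum_const, nsmul_eq_mul, mul_one,
      Finset.card_univ, card_omega, Finset.card_empty, Nat.cast_zero]
    exact le_rfl
  | insert s0 S hs0 ih =>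
    have ih' := ih (fun s hs => hS s (Finset.mem_insert_of_mem hs))
      (fun s hs s' hs' => hSS s (Finset.mem_insert_of_mem hs) s' (Finset.mem_insert_of_mem hs'))
    obtain ⟨Q, hQ⟩ : ∃ Q : ℝ, Q = (q : ℝ) ^ (r * N) := ⟨_, rfl⟩
    have hq0 : (0 : ℝ) < q := by exact_mod_cast hq
    have hQ0 : 0 < Q := by rw [hQ]; positivity
    have h1 := indep (TT r N L s0) (fun w : Fin r × Fin N → Fin q => Real.exp (lam * ff L v s0 w))
      (fun w => Real.exp (lam * ∑ s ∈ S, ff L v s w)) (by
        intro w w' hw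
        congr 2
        unfold ff
        congr 1
        have h2 : EE L v s0 w ↔ EE L v s0 w' := by
          unfold EE
          refine forall_congr' fun p => forall_congr' fun h3 => forall_congr' fun h4 => ?_
          rw [hw p (by unfold TT; rw [Finset.mem_filter]; exact ⟨Finset.mem_univ _, h3, h4⟩)]
        simp only [h2]) (by
        intro w w' hw
        congr 2
        refine Finset.sum_congr rfl fun s hs => ?_
        unfold ff
        congr 1
        have hne : s ≠ s0 := fun h => hs0 (h ▸ hs)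
        have h5 := hSS s (Finset.mem_insert_of_mem hs) s0 (Finset.mem_insert_self _ _) hne
        have h2 : EE L v s w ↔ EE L v s w' := by
          unfold EE
          refine forall_congr' fun p => forall_congr' fun h3 => forall_congr' fun h4 => ?_
          rw [hw p (by
            unfold TT
            rw [Finset.mem_filter]
            rintro ⟨_, h6, h7⟩
            rcases h5 with h5 | h5 <;> omega)]
        simp only [h2])
    rw [card_omega, ← hQ] at h1
    have h2 := exp_sum_le (r := r) (N := N) (q := q) L v hq hv s0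
      (hS s0 (Finset.mem_insert_self _ _)) lam hlam
    rw [← hQ] at h2 ih' ⊢
    have h3 : ∀ w : Fin r × Fin N → Fin q, Real.exp (lam * ∑ s ∈ insert s0 S, ff L v s w) =
        Real.exp (lam * ff L v s0 w) * Real.exp (lam * ∑ s ∈ S, ff L v s w) := by
      intro w
      rw [Finset.sum_insert hs0, mul_add, Real.exp_add]
    simp only [h3]
    rw [Finset.card_insert_of_notMem hs0]
    push_cast
    have h4 : (∑ w : Fin r × Fin N → Fin q, Real.exp (lam * ff L v s0 w)) *
        (∑ w : Fin r × Fin N → Fin q, Real.exp (lam * ∑ s ∈ S, ff L v s w)) ≤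
        (Q * Real.exp (lam ^ 2)) * (Q * Real.exp (lam ^ 2 * S.card)) := by
      apply mul_le_mul h2 ih'
      · exact Finset.sum_nonneg fun _ _ => (Real.exp_pos _).le
      · positivity
    rw [← h1] at h4
    have h5 : (Q * Real.exp (lam ^ 2)) * (Q * Real.exp (lam ^ 2 * S.card)) =
        (Q * Real.exp (lam ^ 2 * (S.card + 1))) * Q := by
      rw [mul_add, mul_one, Real.exp_add]
      ring
    rw [h5] at h4
    exact le_of_mul_le_mul_right h4 hQ0

open Classical in
/-- one-sided Chernoff bound for windows which do not overlap -/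
theorem chernoff {r N q : ℕ} (L : ℕ) (v : Fin r → ℕ → ℕ) (hq : 1 ≤ q)
    (hv : ∀ i, ∀ t < L, v i t < q) (sg : ℝ) (hsg : sg = 1 ∨ sg = -1) (lam : ℝ) (hlam0 : 0 ≤ lam)
    (hlam : lam ≤ 1) (S : Finset ℕ)
    (hS : ∀ s ∈ S, s + L ≤ N) (hSS : ∀ s ∈ S, ∀ s' ∈ S, s ≠ s' → s + L ≤ s' ∨ s' + L ≤ s)
    (x : ℝ) :
    ((Finset.univ.filter fun w : Fin r × Fin N → Fin q =>
      x < sg * ∑ s ∈ S, ff L v s w).card : ℝ) ≤
      (q : ℝ) ^ (r * N) * Real.exp (lam ^ 2 * S.card - lam * x) := by
  have h1 := mgf (r := r) (N := N) (q := q) L v hq hv (lam * sg) (by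
    rcases hsg with rfl | rfl
    · rw [mul_one, abs_of_nonneg hlam0]
      exact hlam
    · rw [mul_neg, mul_one, abs_neg, abs_of_nonneg hlam0]
      exact hlam) S hS hSS
  have hsg2 : (lam * sg) ^ 2 = lam ^ 2 := by
    rcases hsg with rfl | rfl <;> ring
  rw [hsg2] at h1
  have h2 : ((Finset.univ.filter fun w : Fin r × Fin N → Fin q =>
      x < sg * ∑ s ∈ S, ff L v s w).card : ℝ) * Real.exp (lam * x) ≤
      ∑ w : Fin r × Fin N → Fin q, Real.exp (lam * sg * ∑ s ∈ S, ff L v s w) := by
    rw [← nsmul_eq_mul, ← Finset.sum_const]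
    refine le_trans (Finset.sum_le_sum fun w hw => ?_)
      (Finset.sum_le_sum_of_subset_of_nonneg (Finset.filter_subset _ _)
        fun _ _ _ => (Real.exp_pos _).le)
    rw [Finset.mem_filter] at hw
    apply Real.exp_le_exp.2
    rw [mul_assoc]
    exact mul_le_mul_of_nonneg_left hw.2.le hlam0
  have h3 := h2.trans h1
  rw [← le_div_iff₀ (Real.exp_pos _)] at h3
  refine h3.trans (le_of_eq ?_)
  rw [Real.exp_sub]
  ring

open Classical in
/-- word counts of a random string deviate rarely -/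
theorem deviation {r N q : ℕ} (L : ℕ) (hL : 1 ≤ L) (v : Fin r → ℕ → ℕ) (hq : 1 ≤ q)
    (hv : ∀ i, ∀ t < L, v i t < q) (ε : ℝ) (hε0 : 0 < ε) (hε1 : ε ≤ 1) (k : ℕ) (hk : k + L ≤ N) :
    ((Finset.univ.filter fun w : Fin r × Fin N → Fin q =>
      ε * k < |(cnt L v k w : ℝ) - k * (1 / (q : ℝ) ^ (r * L))|).card : ℝ) ≤
      2 * L * ((q : ℝ) ^ (r * N) * Real.exp (1 - ε ^ 2 * k / (4 * L))) := by
  obtain ⟨Q, hQ⟩ : ∃ Q : ℝ, Q = (q : ℝ) ^ (r * N) := ⟨_, rfl⟩
  have hQ0 : 0 ≤ Q := by rw [hQ]; positivity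
  obtain ⟨cl, hcl⟩ : ∃ cl : ℕ → Finset ℕ, cl = fun c => (Finset.range k).filter fun s => s % L = c :=
    ⟨_, rfl⟩
  have hL0 : (0 : ℝ) < L := by exact_mod_cast hL
  have hdev : ∀ w : Fin r × Fin N → Fin q, (cnt L v k w : ℝ) - k * (1 / (q : ℝ) ^ (r * L)) =
      ∑ c ∈ Finset.range L, ∑ s ∈ cl c, ff L v s w := by
    intro w
    have h1 : (cnt L v k w : ℝ) - k * (1 / (q : ℝ) ^ (r * L)) =
        ∑ s ∈ Finset.range k, ff L v s w := by
      unfold ff
      rw [Finset.sum_sub_distrib, Finset.sum_boole, Finset.sum_const, Finset.card_range,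
        nsmul_eq_mul]
      rfl
    rw [h1, hcl]
    simp only
    rw [Finset.sum_fiberwise_of_maps_to (g := fun s => s % L)]
    intro s _
    exact Finset.mem_range.2 (Nat.mod_lt _ hL)
  have hclc : ∀ c, ((cl c).card : ℝ) ≤ k / L + 1 := by
    intro c
    have h1 : cl c ⊆ (Finset.range (k / L + 1)).image (fun j => L * j + c) := by
      intro s hs
      rw [hcl] at hs
      simp only [Finset.mem_filter, Finset.mem_range] at hs
      rw [Finset.mem_image]
      refine ⟨s / L, ?_, ?_⟩
      · rw [Finset.mem_range, Nat.lt_succ_iff]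
        exact Nat.div_le_div_right hs.1.le
      · rw [← hs.2]
        exact Nat.div_add_mod s L
    have h2 := (Finset.card_le_card h1).trans Finset.card_image_le
    rw [Finset.card_range] at h2
    have h3 : ((k / L : ℕ) : ℝ) ≤ k / L := Nat.cast_div_le
    have h4 : ((cl c).card : ℝ) ≤ ((k / L + 1 : ℕ) : ℝ) := by exact_mod_cast h2
    push_cast at h4
    linarith
  have hone : ∀ c, ∀ sg : ℝ, (sg = 1 ∨ sg = -1) →
      ((Finset.univ.filter fun w : Fin r × Fin N → Fin q =>
        ε * k / L < sg * ∑ s ∈ cl c, ff L v s w).card : ℝ) ≤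
        Q * Real.exp (1 - ε ^ 2 * k / (4 * L)) := by
    intro c sg hsg
    have h1 := chernoff (r := r) (N := N) (q := q) L v hq hv sg hsg (ε / 2) (by linarith)
      (by linarith) (cl c) (by
        intro s hs
        rw [hcl] at hs
        simp only [Finset.mem_filter, Finset.mem_range] at hs
        omega) (by
        intro s hs s' hs' hne
        rw [hcl] at hs hs'
        simp only [Finset.mem_filter, Finset.mem_range] at hs hs'
        have h2 := Nat.div_add_mod s L
        have h3 := Nat.div_add_mod s' L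
        rw [hs.2] at h2
        rw [hs'.2] at h3
        rcases Nat.lt_trichotomy (s / L) (s' / L) with h4 | h4 | h4
        · left
          have h5 : L * (s / L) + L ≤ L * (s' / L) := by
            calc L * (s / L) + L = L * (s / L + 1) := by ring
              _ ≤ L * (s' / L) := Nat.mul_le_mul_left _ h4
          omega
        · exfalso
          apply hne
          rw [h4] at h2
          omega
        · right
          have h5 : L * (s' / L) + L ≤ L * (s / L) := by
            calc L * (s' / L) + L = L * (s' / L + 1) := by ring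
              _ ≤ L * (s / L) := Nat.mul_le_mul_left _ h4
          omega) (ε * k / L)
    rw [← hQ] at h1
    refine h1.trans ?_
    apply mul_le_mul_of_nonneg_left _ hQ0
    apply Real.exp_le_exp.2
    have h2 := hclc c
    have h3 : (ε / 2) ^ 2 * ((cl c).card : ℝ) ≤ (ε / 2) ^ 2 * (k / L + 1) := by gcongr
    have h4 : (ε / 2) ^ 2 * ((k : ℝ) / L + 1) - ε / 2 * (ε * k / L) =
        -(ε ^ 2 * k / (4 * L)) + ε ^ 2 / 4 := by
      field_simp
      ring
    have h5 : ε ^ 2 / 4 ≤ 1 := by nlinarith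
    linarith
  have hsub : (Finset.univ.filter fun w : Fin r × Fin N → Fin q =>
      ε * k < |(cnt L v k w : ℝ) - k * (1 / (q : ℝ) ^ (r * L))|) ⊆
      (Finset.range L).biUnion fun c =>
        (Finset.univ.filter fun w : Fin r × Fin N → Fin q =>
          ε * k / L < (1 : ℝ) * ∑ s ∈ cl c, ff L v s w) ∪
        (Finset.univ.filter fun w : Fin r × Fin N → Fin q =>
          ε * k / L < (-1 : ℝ) * ∑ s ∈ cl c, ff L v s w) := by
    intro w hw
    rw [Finset.mem_filter, hdev] at hw
    by_contra hcon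
    have h1 : ∀ c ∈ Finset.range L, |∑ s ∈ cl c, ff L v s w| ≤ ε * k / L := by
      intro c hc
      by_contra h2
      apply hcon
      rw [Finset.mem_biUnion]
      refine ⟨c, hc, ?_⟩
      push Not at h2
      rw [Finset.mem_union, Finset.mem_filter, Finset.mem_filter]
      rcases lt_abs.1 h2 with h3 | h3
      · left
        exact ⟨Finset.mem_univ _, by rwa [one_mul]⟩
      · right
        exact ⟨Finset.mem_univ _, by rwa [neg_one_mul]⟩
    have h2 := (Finset.abs_sum_le_sum_abs (fun c => ∑ s ∈ cl c, ff L v s w)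
      (Finset.range L)).trans (Finset.sum_le_sum h1)
    rw [Finset.sum_const, Finset.card_range, nsmul_eq_mul, mul_div_cancel₀ _ hL0.ne'] at h2
    linarith [hw.2]
  have h1 := (Finset.card_le_card hsub).trans Finset.card_biUnion_le
  have h2 : ((Finset.univ.filter fun w : Fin r × Fin N → Fin q =>
      ε * k < |(cnt L v k w : ℝ) - k * (1 / (q : ℝ) ^ (r * L))|).card : ℝ) ≤
      ∑ c ∈ Finset.range L, (2 * (Q * Real.exp (1 - ε ^ 2 * k / (4 * L)))) := by
    refine le_trans ((Nat.cast_le (α := ℝ)).2 h1) ?_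
    push_cast
    refine Finset.sum_le_sum fun c _ => ?_
    have h3 := Finset.card_union_le (Finset.univ.filter fun w : Fin r × Fin N → Fin q =>
          ε * k / L < (1 : ℝ) * ∑ s ∈ cl c, ff L v s w)
        (Finset.univ.filter fun w : Fin r × Fin N → Fin q =>
          ε * k / L < (-1 : ℝ) * ∑ s ∈ cl c, ff L v s w)
    have h4 := hone c 1 (Or.inl rfl)
    have h5 := hone c (-1) (Or.inr rfl)
    refine le_trans ((Nat.cast_le (α := ℝ)).2 h3) ?_
    push_cast
    linarith
  refine h2.trans (le_of_eq ?_)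
  rw [Finset.sum_const, Finset.card_range, nsmul_eq_mul, hQ]
  ring

end Run7.h683.OB
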