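import Pool.Agent.Run7.h683.OB.N1
import Pool.Agent.Run7.h683.OB.N2

/-!
# One base for all algebraic numbers: frequencies of words, uniform in the numbers
-/

set_option autoImplicit false

namespace Run7.h683.OB

open Finset Filter Run7.h683.AB
open Pool.Agent.Y957.VK

open Classical in
theorem freqU : ∃ d : ℝ, 0 < d ∧ d ≤ 1 / 800 ∧ ∀ (r κ : ℕ), 1 ≤ κ → ∀ q L : ℕ, 1 ≤ q → 1 ≤ L →
    ∀ ε : ℝ, 0 < ε → ε ≤ 1 → ∀ᶠ B : ℕ in atTop, ∀ (M : ℝ) (x : Fin r → ℝ), 1 ≤ M →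
    M ≤ Real.exp (Real.log B ^ (1 / 2 : ℝ)) → MeasU κ M x → ∀ v : Fin r → ℕ → ℕ,
    (∀ i, ∀ t < L, v i t < q) →
    (((Finset.Ioc 0 B).filter fun b => ∃ K : ℕ, Real.log B ^ (8 / 5 * d) ≤ K ∧
      (K : ℝ) ≤ Real.log B ^ (4 * d) ∧ ε * K < |(((Finset.range K).filter fun s => ∀ i, ∀ t < L,
        q * digit b (x i) (s + t + 2) / b = v i t).card : ℝ) - K / (q : ℝ) ^ (r * L)|).card : ℝ) ≤
      B * Real.exp (-(Real.log B ^ (4 / 3 * d))) := by
  obtain ⟨δ, hδ0, hδ1, hmain⟩ := main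
  obtain ⟨d, hd⟩ : ∃ d : ℝ, d = δ / 8 := ⟨_, rfl⟩
  have hd0 : 0 < d := by rw [hd]; positivity
  have hδd : δ = 8 * d := by rw [hd]; ring
  refine ⟨d, hd0, by rw [hd]; linarith, ?_⟩
  intro r κ hκ q L hq hL ε hε0 hε1
  have hlog : Tendsto (fun N : ℕ => Real.log (N : ℝ)) atTop atTop :=
    Real.tendsto_log_atTop.comp tendsto_natCast_atTop_atTop
  have hL0 : (1 : ℝ) ≤ L := by exact_mod_cast hL
  have ev : ∀ᶠ t : ℝ in atTop, 1 ≤ t ∧ 2 * t ^ (4 * d) ≤ t ^ (8 * d) ∧ (L : ℝ) ≤ t ^ (4 * d) ∧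
      (q : ℝ) ≤ t ^ (8 * d) ∧ 5040 ≤ t ^ (4 / 3 * d) ∧ 2 * t ^ (4 / 3 * d) ≤ t ^ (1 / 2 : ℝ) ∧
      (4 * L * (8 * L + 2) / ε ^ 2) * t ^ (4 / 3 * d) ≤ t ^ (8 / 5 * d) := by
    have hd1 : d ≤ 1 / 800 := by rw [hd]; linarith
    filter_upwards [eventually_ge_atTop 1, ev_lt (a := 4 * d) (b := 8 * d) (by linarith) 2,
      ev_const (b := 4 * d) (by linarith) L, ev_const (b := 8 * d) (by linarith) q,
      ev_const (b := 4 / 3 * d) (by linarith) 5040,
      ev_lt (a := 4 / 3 * d) (b := 1 / 2) (by linarith) 2,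
      ev_lt (a := 4 / 3 * d) (b := 8 / 5 * d) (by linarith) (4 * L * (8 * L + 2) / ε ^ 2)]
      with t h1 h2 h3 h4 h5 h6 h7
    exact ⟨h1, h2, h3, h4, h5, h6, h7⟩
  filter_upwards [hlog.eventually ev, hmain r κ hκ, eventually_ge_atTop 1] with B hev hm hB1
  obtain ⟨ht1, e1, e2, e3, e4, e5, e6⟩ := hev
  intro M x hM1 hM hx v hv
  obtain ⟨t, ht⟩ : ∃ t, t = Real.log B := ⟨_, rfl⟩
  have hmx := hm M x hM1 hM hx
  rw [← ht, hδd] at hmx
  rw [← ht] at ht1 e1 e2 e3 e4 e5 e6 ⊢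
  have ht0 : 0 < t := by linarith
  have hB0 : (0 : ℝ) < B := by exact_mod_cast hB1
  obtain ⟨N, hN⟩ : ∃ N : ℕ, N = ⌊t ^ (4 * d)⌋₊ + L := ⟨_, rfl⟩
  have ht4 : (0 : ℝ) ≤ t ^ (4 * d) := Real.rpow_nonneg ht0.le _
  have hNle : (N : ℝ) ≤ t ^ (8 * d) := by
    rw [hN]
    push_cast
    have := Nat.floor_le ht4
    linarith
  obtain ⟨y, hy⟩ : ∃ y, y = t ^ (4 / 3 * d) := ⟨_, rfl⟩
  rw [← hy] at e4 e5 e6 ⊢
  obtain ⟨A, hA⟩ : ∃ A : Finset (Fin r × Fin N → Fin q), A = Finset.univ.filter fun w => ∃ K : ℕ,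
      t ^ (8 / 5 * d) ≤ K ∧ K + L ≤ N ∧ ε * K <
        |(cnt L v K w : ℝ) - K * (1 / (q : ℝ) ^ (r * L))| := ⟨_, rfl⟩
  obtain ⟨Q, hQ⟩ : ∃ Q : ℝ, Q = (q : ℝ) ^ (r * N) := ⟨_, rfl⟩
  have hq0 : (0 : ℝ) < q := by exact_mod_cast hq
  have hQ0 : 0 < Q := by rw [hQ]; positivity
  have hAcard : (A.card : ℝ) ≤ (N + 1) * (2 * L * (Q * Real.exp (1 - ε ^ 2 * t ^ (8 / 5 * d) / (4 * L)))) := by
    have hsub : A ⊆ ((Finset.range (N + 1)).filter fun K : ℕ => t ^ (8 / 5 * d) ≤ K ∧ K + L ≤ N).biUnion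
        fun K => Finset.univ.filter fun w : Fin r × Fin N → Fin q => ε * K <
        |(cnt L v K w : ℝ) - K * (1 / (q : ℝ) ^ (r * L))| := by
      intro w hw
      rw [hA, Finset.mem_filter] at hw
      obtain ⟨_, K, h1, h2, h3⟩ := hw
      rw [Finset.mem_biUnion]
      refine ⟨K, ?_, by rw [Finset.mem_filter]; exact ⟨Finset.mem_univ _, h3⟩⟩
      rw [Finset.mem_filter, Finset.mem_range]
      exact ⟨by omega, h1, h2⟩
    have h1 := (Finset.card_le_card hsub).trans Finset.card_biUnion_le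
    refine le_trans ((Nat.cast_le (α := ℝ)).2 h1) ?_
    push_cast
    have h2 : ∀ K ∈ (Finset.range (N + 1)).filter (fun K : ℕ => t ^ (8 / 5 * d) ≤ K ∧ K + L ≤ N),
        ((Finset.univ.filter fun w : Fin r × Fin N → Fin q => ε * K <
        |(cnt L v K w : ℝ) - K * (1 / (q : ℝ) ^ (r * L))|).card : ℝ) ≤
        2 * L * (Q * Real.exp (1 - ε ^ 2 * t ^ (8 / 5 * d) / (4 * L))) := by
      intro K hK
      rw [Finset.mem_filter] at hK
      refine (deviation L hL v hq hv ε hε0 hε1 K hK.2.2).trans ?_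
      rw [← hQ]
      have h3 : 1 - ε ^ 2 * K / (4 * L) ≤ 1 - ε ^ 2 * t ^ (8 / 5 * d) / (4 * L) := by
        have := hK.2.1
        gcongr
      gcongr
    refine (Finset.sum_le_sum h2).trans ?_
    rw [Finset.sum_const, nsmul_eq_mul]
    have h3 : (((Finset.range (N + 1)).filter
        (fun K : ℕ => t ^ (8 / 5 * d) ≤ K ∧ K + L ≤ N)).card : ℝ) ≤ N + 1 := by
      have h4 := Finset.card_filter_le (Finset.range (N + 1))
        (fun K : ℕ => t ^ (8 / 5 * d) ≤ K ∧ K + L ≤ N)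
      rw [Finset.card_range] at h4
      exact_mod_cast h4
    gcongr
  have hy0 : 0 < y := by linarith
  have h8d : t ^ (8 * d) = y ^ 6 := by
    rw [hy, ← Real.rpow_natCast, ← Real.rpow_mul ht0.le]
    congr 1
    push_cast
    ring
  have hy6 : y ^ 6 ≤ Real.exp y := by
    have h1 := Real.pow_div_factorial_le_exp y hy0.le 7
    have h2 : ((Nat.factorial 7 : ℕ) : ℝ) = 5040 := by norm_num [Nat.factorial]
    rw [h2] at h1
    refine le_trans ?_ h1
    rw [le_div_iff₀ (by norm_num)]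
    have : y ^ 7 = y ^ 6 * y := by ring
    rw [this]
    gcongr
  have hAQ : (A.card : ℝ) / Q ≤ Real.exp (-y) / 2 := by
    rw [div_le_iff₀ hQ0]
    refine hAcard.trans ?_
    have h1 : (N : ℝ) + 1 ≤ 2 * Real.exp y := by
      have h3 : (1 : ℝ) ≤ Real.exp y := Real.one_le_exp hy0.le
      linarith
    have h2 : 8 * L * (Real.exp y * Real.exp (1 - ε ^ 2 * t ^ (8 / 5 * d) / (4 * L))) ≤
        Real.exp (-y) := by
      have h3 : 8 * (L : ℝ) ≤ Real.exp (8 * L - 1) := by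
        have := Real.add_one_le_exp (8 * (L : ℝ) - 1)
        linarith
      calc 8 * L * (Real.exp y * Real.exp (1 - ε ^ 2 * t ^ (8 / 5 * d) / (4 * L))) ≤
          Real.exp (8 * L - 1) * (Real.exp y * Real.exp (1 - ε ^ 2 * t ^ (8 / 5 * d) / (4 * L))) := by
            gcongr
        _ = Real.exp (8 * L + y - ε ^ 2 * t ^ (8 / 5 * d) / (4 * L)) := by
            rw [← Real.exp_add, ← Real.exp_add]
            ring_nf
        _ ≤ Real.exp (-y) := by
            apply Real.exp_le_exp.2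
            have h4 : (8 * L + 2) * y ≤ ε ^ 2 * t ^ (8 / 5 * d) / (4 * L) := by
              rw [le_div_iff₀ (by linarith)]
              have h5 : 4 * L * (8 * L + 2) / ε ^ 2 * y * ε ^ 2 ≤ t ^ (8 / 5 * d) * ε ^ 2 := by
                gcongr
              have h6 : 4 * L * (8 * L + 2) / ε ^ 2 * y * ε ^ 2 = (8 * L + 2) * y * (4 * L) := by
                field_simp
              linarith
            have h5 : (8 : ℝ) * L ≤ 8 * L * y := by nlinarith
            nlinarith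
    have h3 : 0 ≤ Real.exp (1 - ε ^ 2 * t ^ (8 / 5 * d) / (4 * L)) := (Real.exp_pos _).le
    calc ((N : ℝ) + 1) * (2 * L * (Q * Real.exp (1 - ε ^ 2 * t ^ (8 / 5 * d) / (4 * L)))) ≤
        (2 * Real.exp y) * (2 * L * (Q * Real.exp (1 - ε ^ 2 * t ^ (8 / 5 * d) / (4 * L)))) := by
          gcongr
      _ = (8 * L * (Real.exp y * Real.exp (1 - ε ^ 2 * t ^ (8 / 5 * d) / (4 * L)))) / 2 * Q := by
          ring
      _ ≤ Real.exp (-y) / 2 * Q := by gcongr
  have e3' : (q : ℝ) ≤ Real.exp (t ^ (8 * d)) := by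
    have := Real.add_one_le_exp (t ^ (8 * d))
    linarith
  have hmm := hmx N q hq hNle e3' A
  rw [← hQ] at hmm
  have hexp : Real.exp (-(t ^ (1 / 2 : ℝ))) ≤ Real.exp (-y) / 2 := by
    have h1 : Real.exp (-(t ^ (1 / 2 : ℝ))) ≤ Real.exp (-y - 1) := by
      apply Real.exp_le_exp.2
      linarith
    have h2 : Real.exp (-y - 1) ≤ Real.exp (-y) / 2 := by
      rw [Real.exp_sub]
      have h3 : (2 : ℝ) ≤ Real.exp 1 := by
        have := Real.add_one_le_exp (1 : ℝ)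
        linarith
      have h4 := Real.exp_pos (-y)
      gcongr
    exact h1.trans h2
  have h1 := (abs_le.1 hmm).2
  have h2 : (((Finset.Ioc 0 B).filter fun b => ∃ w ∈ A, ∀ p : Fin r × Fin N,
          q * digit b (x p.1) ((p.2 : ℕ) + 2) / b = w p).card : ℝ) / B ≤ Real.exp (-y) := by linarith
  rw [div_le_iff₀ hB0] at h2
  refine le_trans ?_ (h2.trans (le_of_eq (mul_comm _ _)))
  have hsub : ((Finset.Ioc 0 B).filter fun b => ∃ K : ℕ, t ^ (8 / 5 * d) ≤ K ∧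
      (K : ℝ) ≤ t ^ (4 * d) ∧ ε * K < |(((Finset.range K).filter fun s => ∀ i, ∀ t < L,
        q * digit b (x i) (s + t + 2) / b = v i t).card : ℝ) - K / (q : ℝ) ^ (r * L)|) ⊆
      (Finset.Ioc 0 B).filter fun b => ∃ w ∈ A, ∀ p : Fin r × Fin N,
          q * digit b (x p.1) ((p.2 : ℕ) + 2) / b = w p := by
    intro b hb
    rw [Finset.mem_filter, Finset.mem_Ioc] at hb
    obtain ⟨⟨hb0, hbB⟩, K, hK0, hK, hbad⟩ := hb
    rw [Finset.mem_filter, Finset.mem_Ioc]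
    refine ⟨⟨hb0, hbB⟩, ?_⟩
    obtain ⟨w, hw⟩ : ∃ w : Fin r × Fin N → Fin q, w = fun p =>
      ⟨q * digit b (x p.1) ((p.2 : ℕ) + 2) / b, coarse_lt q b _ _ hq (by omega)⟩ := ⟨_, rfl⟩
    refine ⟨w, ?_, fun p => by rw [hw]⟩
    have hKN : K + L ≤ N := by
      have : K ≤ ⌊t ^ (4 * d)⌋₊ := Nat.le_floor hK
      omega
    have h4 : cnt L v K w = ((Finset.range K).filter fun s => ∀ i, ∀ t < L,
        q * digit b (x i) (s + t + 2) / b = v i t).card := by
      unfold cnt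
      congr 1
      refine Finset.filter_congr fun s hs => ?_
      rw [Finset.mem_range] at hs
      unfold EE
      rw [hw]
      constructor
      · intro h i t ht
        have h5 := h (i, ⟨s + t, by omega⟩) (by simp) (by simp; exact ht)
        simp only [Nat.add_sub_cancel_left] at h5
        exact h5
      · intro h p hp1 hp2
        have h5 := h p.1 (p.2 - s) (by omega)
        simp only
        rw [← h5]
        congr 3
        omega
    rw [hA, Finset.mem_filter]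
    refine ⟨Finset.mem_univ _, K, hK0, hKN, ?_⟩
    rw [h4, mul_one_div]
    exact hbad
  exact_mod_cast Finset.card_le_card hsub

end Run7.h683.OB
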