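import Pool.Agent.Run7.h683.AB.M3

/-!
# One base for all algebraic numbers: linear forms in algebraic numbers of bounded degree
-/

set_option autoImplicit false

namespace Run7.h683.OB

open Finset Polynomial Matrix Run7.h683.AB

/-- the values of an integer polynomial at integer points -/
theorem mv_int {σ : Type} (F : MvPolynomial σ ℤ) : ∃ E n : ℕ, ∀ (h : σ → ℤ) (T : ℤ),
    1 ≤ T → (∀ i, |h i| ≤ T) → |MvPolynomial.eval h F| ≤ (E : ℤ) * T ^ n := by
  induction F using MvPolynomial.induction_on with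
  | C a =>
    refine ⟨a.natAbs, 0, fun h T hT hh => ?_⟩
    rw [MvPolynomial.eval_C, pow_zero, mul_one, Int.abs_eq_natAbs]
  | add p q hp hq =>
    obtain ⟨E1, n1, h1⟩ := hp
    obtain ⟨E2, n2, h2⟩ := hq
    refine ⟨E1 + E2, n1 + n2, fun h T hT hh => ?_⟩
    have b1 := h1 h T hT hh
    have b2 := h2 h T hT hh
    rw [map_add]
    have k1 : T ^ n1 ≤ T ^ (n1 + n2) := pow_le_pow_right₀ hT (by omega)
    have k2 : T ^ n2 ≤ T ^ (n1 + n2) := pow_le_pow_right₀ hT (by omega)
    have k3 : (E1 : ℤ) * T ^ n1 ≤ E1 * T ^ (n1 + n2) :=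
      mul_le_mul_of_nonneg_left k1 (by positivity)
    have k4 : (E2 : ℤ) * T ^ n2 ≤ E2 * T ^ (n1 + n2) :=
      mul_le_mul_of_nonneg_left k2 (by positivity)
    refine (abs_add_le _ _).trans ?_
    push_cast
    linarith
  | mul_X p i hp =>
    obtain ⟨E, n, h1⟩ := hp
    refine ⟨E, n + 1, fun h T hT hh => ?_⟩
    have b1 := h1 h T hT hh
    rw [map_mul, MvPolynomial.eval_X, abs_mul, pow_succ, ← mul_assoc]
    exact mul_le_mul b1 (hh i) (abs_nonneg _) (by positivity)

/-- the coefficients of the characteristic polynomial of an integer matrix -/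
theorem charpoly_bound (J : Type) [Fintype J] [DecidableEq J] : ∃ E n : ℕ, ∀ (M : Matrix J J ℤ)
    (T : ℤ), 1 ≤ T → (∀ i j, |M i j| ≤ T) → ∀ k, |M.charpoly.coeff k| ≤ (E : ℤ) * T ^ n := by
  classical
  choose E n hF using fun k : ℕ => mv_int ((Matrix.charpoly.univ ℤ J).coeff k)
  refine ⟨1 + ∑ k ∈ Finset.range (Fintype.card J + 1), E k,
    ∑ k ∈ Finset.range (Fintype.card J + 1), n k, fun M T hT hM k => ?_⟩
  by_cases hk : k ≤ Fintype.card J
  · have h1 := hF k (fun p => M p.1 p.2) T hT (fun p => hM p.1 p.2)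
    have h0 : MvPolynomial.eval (fun p : J × J => M p.1 p.2)
        ((Matrix.charpoly.univ ℤ J).coeff k) = M.charpoly.coeff k :=
      Matrix.charpoly.univ_coeff_eval₂Hom J (RingHom.id ℤ) (fun p : J × J => M p.1 p.2) k
    rw [h0] at h1
    have hm := Finset.mem_range.2 (by omega : k < Fintype.card J + 1)
    have a2 := Finset.single_le_sum (f := E) (fun _ _ => Nat.zero_le _) hm
    have a3 := Finset.single_le_sum (f := n) (fun _ _ => Nat.zero_le _) hm
    refine h1.trans ?_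
    have k1 : T ^ (n k) ≤ T ^ (∑ k ∈ Finset.range (Fintype.card J + 1), n k) :=
      pow_le_pow_right₀ hT a3
    have k2 : ((E k : ℕ) : ℤ) ≤ ((1 + ∑ k ∈ Finset.range (Fintype.card J + 1), E k : ℕ) : ℤ) := by
      exact_mod_cast (by omega : E k ≤ 1 + ∑ k ∈ Finset.range (Fintype.card J + 1), E k)
    exact mul_le_mul k2 k1 (by positivity) (by positivity)
  · rw [Polynomial.coeff_eq_zero_of_natDegree_lt (by
      rw [Matrix.charpoly_natDegree_eq_dim]
      omega), abs_zero]
    positivity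

/-- a root of an integer polynomial of degree at most `D` times the leading coefficient is a root of
a monic integer polynomial of degree `D` -/
theorem monic_form (D H : ℕ) (P : ℤ[X]) (hP : P ≠ 0) (hPD : P.natDegree ≤ D) (hD : 1 ≤ D)
    (hPH : ∀ j, |P.coeff j| ≤ H) (x : ℝ) (hx : aeval x P = 0) :
    ∃ (a : ℤ) (β : Fin D → ℤ), a ≠ 0 ∧ |a| ≤ H ∧ (∀ k, |β k| ≤ (H : ℤ) ^ D) ∧
      ((a : ℝ) * x) ^ D = ∑ k : Fin D, (β k : ℝ) * ((a : ℝ) * x) ^ (k : ℕ) := by
  obtain ⟨n, hn⟩ : ∃ n, n = P.natDegree := ⟨_, rfl⟩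
  obtain ⟨a, ha⟩ : ∃ a, a = P.leadingCoeff := ⟨_, rfl⟩
  have ha0 : a ≠ 0 := by rw [ha]; exact leadingCoeff_ne_zero.2 hP
  have haH : |a| ≤ H := by rw [ha]; exact hPH _
  have hH1 : (1 : ℤ) ≤ H := (Int.one_le_abs ha0).trans haH
  have hn1 : 1 ≤ n := by
    by_contra hcon
    have h0 : P.natDegree = 0 := by omega
    rw [eq_C_of_natDegree_eq_zero h0, aeval_C] at hx
    have h1 : P.coeff 0 = 0 := by
      have h2 : ((P.coeff 0 : ℤ) : ℝ) = 0 := by simpa using hx
      exact_mod_cast h2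
    apply ha0
    rw [ha, leadingCoeff, h0, h1]
  refine ⟨a, fun k => if D - n ≤ (k : ℕ) then -(a ^ (D - 1 - (k : ℕ)) * P.coeff ((k : ℕ) - (D - n)))
    else 0, ha0, haH, ?_, ?_⟩
  · intro k
    simp only
    split_ifs with hk
    · rw [abs_neg, abs_mul, abs_pow]
      have h1 : |a| ^ (D - 1 - (k : ℕ)) ≤ (H : ℤ) ^ (D - 1) := by
        calc |a| ^ (D - 1 - (k : ℕ)) ≤ (H : ℤ) ^ (D - 1 - (k : ℕ)) :=
              pow_le_pow_left₀ (abs_nonneg _) haH _
          _ ≤ (H : ℤ) ^ (D - 1) := pow_le_pow_right₀ hH1 (by omega)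
      calc |a| ^ (D - 1 - (k : ℕ)) * |P.coeff ((k : ℕ) - (D - n))| ≤ (H : ℤ) ^ (D - 1) * H :=
            mul_le_mul h1 (hPH _) (abs_nonneg _) (by positivity)
        _ = (H : ℤ) ^ D := by
            rw [← pow_succ]
            congr 1
            omega
    · rw [abs_zero]
      positivity
  · have h1 : ∑ j ∈ Finset.range (n + 1), (P.coeff j : ℝ) * x ^ j = 0 := by
      rw [aeval_eq_sum_range, ← hn] at hx
      rw [← hx]
      refine Finset.sum_congr rfl fun j _ => ?_
      rw [zsmul_eq_mul]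
    rw [Finset.sum_range_succ] at h1
    have h2 : (P.coeff n : ℝ) = a := by rw [ha, leadingCoeff, hn]
    rw [h2] at h1
    have h3 : (a : ℝ) * x ^ n = -∑ j ∈ Finset.range n, (P.coeff j : ℝ) * x ^ j := by linarith
    have h4 : ((a : ℝ) * x) ^ D = (a : ℝ) ^ (D - 1) * x ^ (D - n) * ((a : ℝ) * x ^ n) := by
      have e1 : D = (D - 1) + 1 := by omega
      have e2 : D = (D - n) + n := by omega
      rw [mul_pow]
      nth_rewrite 1 [e1]
      rw [pow_succ]
      nth_rewrite 2 [e2]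
      rw [pow_add]
      ring
    rw [h4, h3, mul_neg, Finset.mul_sum]
    rw [Fin.sum_univ_eq_sum_range (fun k => (((if D - n ≤ k then
      -(a ^ (D - 1 - k) * P.coeff (k - (D - n))) else 0 : ℤ)) : ℝ) * ((a : ℝ) * x) ^ k) D]
    have h5 : ∑ k ∈ Finset.range D, (((if D - n ≤ k then
      -(a ^ (D - 1 - k) * P.coeff (k - (D - n))) else 0 : ℤ)) : ℝ) * ((a : ℝ) * x) ^ k =
        ∑ j ∈ Finset.range n, (((if D - n ≤ (D - n) + j then
      -(a ^ (D - 1 - ((D - n) + j)) * P.coeff (((D - n) + j) - (D - n))) else 0 : ℤ)) : ℝ) *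
        ((a : ℝ) * x) ^ ((D - n) + j) := by
      have e2 : D = (D - n) + n := by omega
      conv_lhs => rw [e2, Finset.sum_range_add]
      rw [Finset.sum_eq_zero (s := Finset.range (D - n)) (fun k hk => by
        rw [Finset.mem_range] at hk
        rw [if_neg (by omega)]
        simp), zero_add]
      rw [← e2]
    rw [h5, ← Finset.sum_neg_distrib]
    refine Finset.sum_congr rfl fun j hj => ?_
    rw [Finset.mem_range] at hj
    rw [if_pos (by omega), Nat.add_sub_cancel_left]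
    push_cast
    have e3 : D - 1 = (D - 1 - ((D - n) + j)) + ((D - n) + j) := by omega
    conv_lhs => rw [e3]
    rw [pow_add, pow_add, mul_pow]
    rw [pow_add x]
    rw [pow_add (a : ℝ) (D - n) j]
    ring

end Run7.h683.OB
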