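import Pool.Agent.Run7.h683.OB.N4
import Pool.Agent.Run7.h683.OB.N1

/-!
# One base for all algebraic numbers: linear forms in algebraic numbers, with explicit dependence on
the heights
-/

set_option autoImplicit false

namespace Run7.h683.OB

open Finset Polynomial Matrix Run7.h683.AB
open Pool.Agent.Y957.VK

theorem sum_update {r D : ℕ} (i : Fin r) (e : Fin r → Fin D) (F : (Fin r → Fin D) → ℝ) :
    ∑ e', (if (∀ j, j ≠ i → e' j = e j) then F e' else 0) = ∑ k, F (Function.update e i k) := by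
  classical
  rw [← Finset.sum_filter]
  symm
  apply Finset.sum_bij (fun k _ => Function.update e i k)
  · intro k _
    rw [Finset.mem_filter]
    refine ⟨Finset.mem_univ _, fun j hj => ?_⟩
    rw [Function.update_of_ne hj]
  · intro k _ k' _ h
    have := congrFun h i
    rwa [Function.update_self, Function.update_self] at this
  · intro e' he'
    rw [Finset.mem_filter] at he'
    refine ⟨e' i, Finset.mem_univ _, ?_⟩
    funext j
    by_cases hj : j = i
    · subst hj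
      rw [Function.update_self]
    · rw [Function.update_of_ne hj, he'.2 j hj]
  · intro k _
    rfl

/-- the monomials -/
noncomputable def om {r D : ℕ} (y : Fin r → ℝ) (e : Fin r → Fin D) : ℝ := ∏ i, y i ^ (e i : ℕ)

theorem om_update {r D : ℕ} (y : Fin r → ℝ) (e : Fin r → Fin D) (i : Fin r) (k : Fin D) :
    om y (Function.update e i k) = y i ^ (k : ℕ) * ∏ j ∈ Finset.univ.erase i, y j ^ (e j : ℕ) := by
  classical
  unfold om
  rw [← Finset.mul_prod_erase _ _ (Finset.mem_univ i), Function.update_self]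
  congr 1
  refine Finset.prod_congr rfl fun j hj => ?_
  rw [Function.update_of_ne (Finset.ne_of_mem_erase hj)]

theorem om_split {r D : ℕ} (y : Fin r → ℝ) (e : Fin r → Fin D) (i : Fin r) :
    om y e = y i ^ (e i : ℕ) * ∏ j ∈ Finset.univ.erase i, y j ^ (e j : ℕ) := by
  classical
  unfold om
  rw [← Finset.mul_prod_erase _ _ (Finset.mem_univ i)]

/-- multiplication by `y i` -/
def NN {r D : ℕ} (β : Fin r → Fin D → ℤ) (i : Fin r) : Matrix (Fin r → Fin D) (Fin r → Fin D) ℤ :=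
  Matrix.of fun e e' => if (∀ j, j ≠ i → e' j = e j) then
    (if (e i : ℕ) + 1 < D then (if (e' i : ℕ) = (e i : ℕ) + 1 then 1 else 0) else β i (e' i)) else 0

theorem NN_mul {r D : ℕ} (β : Fin r → Fin D → ℤ) (y : Fin r → ℝ)
    (hy : ∀ i, y i ^ D = ∑ k : Fin D, (β i k : ℝ) * y i ^ (k : ℕ)) (i : Fin r) (e : Fin r → Fin D) :
    ∑ e', ((NN β i e e' : ℤ) : ℝ) * om y e' = y i * om y e := by
  classical
  have h1 : ∀ e', ((NN β i e e' : ℤ) : ℝ) * om y e' =
      if (∀ j, j ≠ i → e' j = e j) then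
        (((if (e i : ℕ) + 1 < D then (if (e' i : ℕ) = (e i : ℕ) + 1 then 1 else 0)
          else β i (e' i) : ℤ)) : ℝ) * om y e' else 0 := by
    intro e'
    unfold NN
    rw [Matrix.of_apply]
    by_cases h : ∀ j, j ≠ i → e' j = e j
    · rw [if_pos h, if_pos h]
    · rw [if_neg h, if_neg h]
      simp
  simp only [h1]
  rw [sum_update i e (fun e' => (((if (e i : ℕ) + 1 < D then
    (if (e' i : ℕ) = (e i : ℕ) + 1 then 1 else 0) else β i (e' i) : ℤ)) : ℝ) * om y e')]
  simp only [om_update, Function.update_self]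
  rw [om_split y e i]
  by_cases hD : (e i : ℕ) + 1 < D
  · simp only [if_pos hD]
    rw [Finset.sum_eq_single (⟨(e i : ℕ) + 1, hD⟩ : Fin D)]
    · simp only [if_true, Int.cast_one, one_mul]
      rw [pow_succ]
      ring
    · intro k _ hk
      rw [if_neg]
      · simp
      · intro h
        exact hk (Fin.ext h)
    · intro h
      exact absurd (Finset.mem_univ _) h
  · simp only [if_neg hD]
    have h2 : (e i : ℕ) + 1 = D := by
      have := (e i).2
      omega
    have h3 : ∑ k : Fin D, ((β i k : ℤ) : ℝ) * (y i ^ (k : ℕ) *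
        ∏ j ∈ Finset.univ.erase i, y j ^ (e j : ℕ)) =
        (∑ k : Fin D, (β i k : ℝ) * y i ^ (k : ℕ)) * ∏ j ∈ Finset.univ.erase i, y j ^ (e j : ℕ) := by
      rw [Finset.sum_mul]
      exact Finset.sum_congr rfl fun k _ => by ring
    rw [h3, ← hy i]
    have h4 : y i ^ D = y i ^ ((e i : ℕ) + 1) := by rw [h2]
    rw [h4, pow_succ]
    ring

theorem NN_le {r D : ℕ} (β : Fin r → Fin D → ℤ) (S : ℤ) (hS : 1 ≤ S) (hβ : ∀ i k, |β i k| ≤ S)
    (i : Fin r) (e e' : Fin r → Fin D) : |NN β i e e'| ≤ S := by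
  unfold NN
  rw [Matrix.of_apply]
  split_ifs
  · rw [abs_one]; exact hS
  · rw [abs_zero]; linarith
  · exact hβ _ _
  · rw [abs_zero]; linarith

/-- a bound for the number itself -/
theorem root_le (D : ℕ) (hD : 1 ≤ D) (S : ℝ) (hS : 1 ≤ S) (y : ℝ) (β : Fin D → ℝ)
    (hβ : ∀ k, |β k| ≤ S) (hy : y ^ D = ∑ k : Fin D, β k * y ^ (k : ℕ)) : |y| ≤ D * S := by
  by_contra hcon
  push Not at hcon
  have hD0 : (1 : ℝ) ≤ D := by exact_mod_cast hD
  have h1 : 1 ≤ |y| := by nlinarith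
  have h2 : |y| ^ D ≤ D * S * |y| ^ (D - 1) := by
    rw [← abs_pow, hy]
    refine (Finset.abs_sum_le_sum_abs _ _).trans ?_
    have h3 : ∀ k ∈ (Finset.univ : Finset (Fin D)), |β k * y ^ (k : ℕ)| ≤ S * |y| ^ (D - 1) := by
      intro k _
      rw [abs_mul, abs_pow]
      have h4 : |y| ^ (k : ℕ) ≤ |y| ^ (D - 1) := pow_le_pow_right₀ h1 (by have := k.2; omega)
      have := hβ k
      gcongr
    refine (Finset.sum_le_sum h3).trans (le_of_eq ?_)
    rw [Finset.sum_const, Finset.card_univ, Fintype.card_fin, nsmul_eq_mul]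
    ring
  have h3 : |y| ^ D = |y| * |y| ^ (D - 1) := by
    rw [← pow_succ']
    congr 1
    omega
  rw [h3] at h2
  have h4 : 0 < |y| ^ (D - 1) := by positivity
  exact absurd (le_of_mul_le_mul_right h2 h4) (not_le.2 hcon)

theorem lin_form (D r : ℕ) (hD : 1 ≤ D) : ∃ κ E : ℕ, 1 ≤ κ ∧ 1 ≤ E ∧ ∀ (H : ℕ), 1 ≤ H →
    ∀ (a : Fin r → ℤ) (β : Fin r → Fin D → ℤ) (x : Fin r → ℝ), (∀ i, a i ≠ 0) →
    (∀ i, |a i| ≤ H) → (∀ i k, |β i k| ≤ (H : ℤ) ^ D) →
    (∀ i, ((a i : ℝ) * x i) ^ D = ∑ k : Fin D, (β i k : ℝ) * ((a i : ℝ) * x i) ^ (k : ℕ)) →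
    ∀ g : Option (Fin r) → ℤ, (g none : ℝ) + ∑ i, (g (some i) : ℝ) * x i ≠ 0 → ∀ T : ℕ, 1 ≤ T →
      (∀ i, |g i| ≤ T) → 1 / ((E : ℝ) * (H : ℝ) ^ κ * (T : ℝ) ^ κ) ≤
        |(g none : ℝ) + ∑ i, (g (some i) : ℝ) * x i| := by
  classical
  obtain ⟨E, n, hb⟩ := charpoly_bound (Fin r → Fin D)
  obtain ⟨m, hm⟩ : ∃ m, m = Fintype.card (Fin r → Fin D) := ⟨_, rfl⟩
  refine ⟨r + (r + D) * ((n + 1) * (m + 1)),
    (m + 1) * (E + m + 1) ^ (m + 1) * (r + 1) ^ ((n + 1) * (m + 1)), ?_, ?_, ?_⟩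
  · have : 1 ≤ (r + D) * ((n + 1) * (m + 1)) := Nat.mul_pos (by omega) (by positivity)
    omega
  · exact Nat.mul_pos (Nat.mul_pos (by omega) (by positivity)) (by positivity)
  intro H hH a β x ha0 haH hβ hy g hL0 T hT hgT
  have hHz : (1 : ℤ) ≤ H := by exact_mod_cast hH
  have hTz : (1 : ℤ) ≤ T := by exact_mod_cast hT
  obtain ⟨y, hydef⟩ : ∃ y : Fin r → ℝ, y = fun i => (a i : ℝ) * x i := ⟨_, rfl⟩
  have hy' : ∀ i, y i ^ D = ∑ k : Fin D, (β i k : ℝ) * y i ^ (k : ℕ) := by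
    intro i
    rw [hydef]
    exact hy i
  obtain ⟨L, hL⟩ : ∃ L : ℝ, L = (g none : ℝ) + ∑ i, (g (some i) : ℝ) * x i := ⟨_, rfl⟩
  rw [← hL] at hL0 ⊢
  obtain ⟨Aa, hAa⟩ : ∃ Aa : ℤ, Aa = ∏ j, a j := ⟨_, rfl⟩
  obtain ⟨Ai, hAi⟩ : ∃ Ai : Fin r → ℤ, Ai = fun i => ∏ j ∈ Finset.univ.erase i, a j := ⟨_, rfl⟩
  have hAa0 : Aa ≠ 0 := by
    rw [hAa]
    exact Finset.prod_ne_zero_iff.2 fun i _ => ha0 i
  have hAaH : |Aa| ≤ (H : ℤ) ^ r := by
    rw [hAa, Finset.abs_prod]
    calc ∏ j, |a j| ≤ ∏ j : Fin r, (H : ℤ) := Finset.prod_le_prod (fun _ _ => abs_nonneg _)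
          fun j _ => haH j
      _ = (H : ℤ) ^ r := by rw [Finset.prod_const, Finset.card_univ, Fintype.card_fin]
  have hAiH : ∀ i, |Ai i| ≤ (H : ℤ) ^ r := by
    intro i
    rw [hAi]
    simp only
    rw [Finset.abs_prod]
    calc ∏ j ∈ Finset.univ.erase i, |a j| ≤ ∏ j ∈ Finset.univ.erase i, (H : ℤ) :=
          Finset.prod_le_prod (fun _ _ => abs_nonneg _) fun j _ => haH j
      _ = (H : ℤ) ^ (r - 1) := by
          rw [Finset.prod_const, Finset.card_erase_of_mem (Finset.mem_univ i), Finset.card_univ,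
            Fintype.card_fin]
      _ ≤ (H : ℤ) ^ r := pow_le_pow_right₀ hHz (by omega)
  have hAx : ∀ i, (Aa : ℝ) * x i = (Ai i : ℝ) * y i := by
    intro i
    rw [hAa, hAi, hydef, ← Finset.mul_prod_erase _ _ (Finset.mem_univ i)]
    push_cast
    ring
  obtain ⟨M, hM⟩ : ∃ M : Matrix (Fin r → Fin D) (Fin r → Fin D) ℤ,
      M = Matrix.of fun e e' => g none * Aa * (if e = e' then 1 else 0) +
        ∑ i, g (some i) * Ai i * NN β i e e' := ⟨_, rfl⟩
  obtain ⟨T0, hT0⟩ : ∃ T0 : ℤ, T0 = (r + 1) * T * (H : ℤ) ^ (r + D) := ⟨_, rfl⟩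
  have hHrD : (1 : ℤ) ≤ (H : ℤ) ^ (r + D) := one_le_pow₀ hHz
  have hT01 : 1 ≤ T0 := by
    rw [hT0]
    have h1 : (1 : ℤ) ≤ (r + 1) * T := by nlinarith [Int.natCast_nonneg r]
    nlinarith
  have hMT : ∀ e e', |M e e'| ≤ T0 := by
    intro e e'
    rw [hM, Matrix.of_apply]
    refine (abs_add_le _ _).trans ?_
    have h1 : |g none * Aa * (if e = e' then 1 else 0)| ≤ T * (H : ℤ) ^ (r + D) := by
      rw [abs_mul, abs_mul]
      have h2 : |(if e = e' then (1 : ℤ) else 0)| ≤ 1 := by split_ifs <;> simp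
      calc |g none| * |Aa| * |(if e = e' then (1 : ℤ) else 0)| ≤ T * (H : ℤ) ^ r * 1 := by
            have := hgT none
            gcongr
        _ = T * (H : ℤ) ^ r := mul_one _
        _ ≤ T * (H : ℤ) ^ (r + D) := by
            gcongr
            omega
    have h2 : |∑ i, g (some i) * Ai i * NN β i e e'| ≤ r * (T * (H : ℤ) ^ (r + D)) := by
      refine (Finset.abs_sum_le_sum_abs _ _).trans ?_
      have h3 : ∀ i ∈ (Finset.univ : Finset (Fin r)), |g (some i) * Ai i * NN β i e e'| ≤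
          T * (H : ℤ) ^ (r + D) := by
        intro i _
        rw [abs_mul, abs_mul]
        calc |g (some i)| * |Ai i| * |NN β i e e'| ≤ T * (H : ℤ) ^ r * (H : ℤ) ^ D := by
              have := hgT (some i)
              have := hAiH i
              have := NN_le β ((H : ℤ) ^ D) (one_le_pow₀ hHz) hβ i e e'
              gcongr
          _ = T * (H : ℤ) ^ (r + D) := by rw [pow_add]; ring
      refine (Finset.sum_le_sum h3).trans (le_of_eq ?_)
      rw [Finset.sum_const, Finset.card_univ, Fintype.card_fin, nsmul_eq_mul]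
    rw [hT0]
    linarith
  -- the eigenvector
  have heig : ∀ e, ∑ e', ((M e e' : ℤ) : ℝ) * om y e' = (Aa * L) * om y e := by
    intro e
    rw [hM]
    simp only [Matrix.of_apply]
    push_cast
    have h1 : ∀ e', ((g none : ℝ) * Aa * (if e = e' then 1 else 0) +
        ∑ i, (g (some i) : ℝ) * Ai i * (NN β i e e' : ℝ)) * om y e' =
        (if e = e' then (g none : ℝ) * Aa * om y e' else 0) +
          ∑ i, (g (some i) : ℝ) * Ai i * ((NN β i e e' : ℝ) * om y e') := by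
      intro e'
      rw [add_mul, Finset.sum_mul]
      congr 1
      · split_ifs <;> simp
      · exact Finset.sum_congr rfl fun i _ => by ring
    simp only [h1]
    rw [Finset.sum_add_distrib, Finset.sum_ite_eq, if_pos (Finset.mem_univ _), Finset.sum_comm]
    have h2 : ∀ i, ∑ e', (g (some i) : ℝ) * Ai i * ((NN β i e e' : ℝ) * om y e') =
        (g (some i) : ℝ) * (Aa * x i) * om y e := by
      intro i
      rw [← Finset.mul_sum, NN_mul β y hy' i e, hAx]
      ring
    simp only [h2]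
    rw [hL, mul_add, add_mul, Finset.mul_sum, Finset.sum_mul]
    congr 1
    · ring
    · exact Finset.sum_congr rfl fun i _ => by ring
  have hne : om y (fun _ => (⟨0, hD⟩ : Fin D)) = 1 := by
    unfold om
    simp
  have homne : (om y : (Fin r → Fin D) → ℝ) ≠ 0 := by
    intro h0
    rw [h0] at hne
    simp at hne
  obtain ⟨M', hM'⟩ : ∃ M' : Matrix (Fin r → Fin D) (Fin r → Fin D) ℝ,
      M' = M.map (Int.castRingHom ℝ) := ⟨_, rfl⟩
  have heig' : M' *ᵥ (om y) = (Aa * L) • (om y : (Fin r → Fin D) → ℝ) := by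
    funext e
    rw [Matrix.mulVec, dotProduct, Pi.smul_apply, smul_eq_mul, ← heig e, hM']
    rfl
  have hroot : M'.charpoly.eval (Aa * L) = 0 := by
    rw [Matrix.eval_charpoly, ← Matrix.exists_mulVec_eq_zero_iff]
    refine ⟨om y, homne, ?_⟩
    rw [Matrix.sub_mulVec, heig', Matrix.scalar_apply, sub_eq_zero]
    funext j
    simp [Matrix.mulVec_diagonal]
  obtain ⟨c, hc⟩ : ∃ c : ℕ → ℝ, c = fun k => ((M.charpoly.coeff k : ℤ) : ℝ) := ⟨_, rfl⟩
  have hcM' : ∀ k, M'.charpoly.coeff k = c k := by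
    intro k
    rw [hM', Matrix.charpoly_map, coeff_map, hc]
    rfl
  have hcm : c m = 1 := by
    rw [hc]
    have h1 := Matrix.charpoly_monic M
    have h2 := Matrix.charpoly_natDegree_eq_dim M
    rw [← hm] at h2
    have h3 := h1.coeff_natDegree
    rw [h2] at h3
    simp only
    rw [h3, Int.cast_one]
  have hsum : ∑ j ∈ Finset.range (m + 1), c j * (Aa * L) ^ j = 0 := by
    rw [eval_eq_sum_range, Matrix.charpoly_natDegree_eq_dim, ← hm] at hroot
    simp only [hcM'] at hroot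
    exact hroot
  have hT0R : (1 : ℝ) ≤ T0 := by exact_mod_cast hT01
  have hcle : ∀ k, |c k| ≤ E * (T0 : ℝ) ^ n := by
    intro k
    rw [hc]
    have := hb M T0 hT01 hMT k
    simp only
    exact_mod_cast this
  -- a bound for the eigenvalue
  have heigle : |(Aa : ℝ) * L| ≤ m * T0 := by
    obtain ⟨e, _, he⟩ := Finset.exists_max_image (Finset.univ : Finset (Fin r → Fin D))
      (fun e => |om y e|) ⟨fun _ => (⟨0, hD⟩ : Fin D), Finset.mem_univ _⟩
    have hpos : 0 < |om y e| := by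
      have := he (fun _ => (⟨0, hD⟩ : Fin D)) (Finset.mem_univ _)
      rw [hne, abs_one] at this
      linarith
    have h1 : |(Aa : ℝ) * L| * |om y e| ≤ (m * T0) * |om y e| := by
      rw [← abs_mul, ← heig e]
      refine (Finset.abs_sum_le_sum_abs _ _).trans ?_
      have h2 : ∀ e' ∈ (Finset.univ : Finset (Fin r → Fin D)), |((M e e' : ℤ) : ℝ) * om y e'| ≤
          T0 * |om y e| := by
        intro e' _
        rw [abs_mul]
        have h3 : |((M e e' : ℤ) : ℝ)| ≤ T0 := by exact_mod_cast hMT e e'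
        have h4 := he e' (Finset.mem_univ _)
        gcongr
      refine (Finset.sum_le_sum h2).trans (le_of_eq ?_)
      rw [Finset.sum_const, Finset.card_univ, ← hm, nsmul_eq_mul]
      ring
    exact le_of_mul_le_mul_right h1 hpos
  have hpow : (T0 : ℝ) ^ n ≤ (T0 : ℝ) ^ (n + 1) := pow_le_pow_right₀ hT0R (by omega)
  have hpow1 : (T0 : ℝ) ^ 1 ≤ (T0 : ℝ) ^ (n + 1) := pow_le_pow_right₀ hT0R (by omega)
  rw [pow_one] at hpow1
  have hpow0 : (1 : ℝ) ≤ (T0 : ℝ) ^ (n + 1) := one_le_pow₀ hT0R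
  have hE0 : (0 : ℝ) ≤ E := Nat.cast_nonneg E
  have hm0 : (0 : ℝ) ≤ m := Nat.cast_nonneg m
  have hrb := root_bound m c (Aa * L) 1 ((E + m + 1) * (T0 : ℝ) ^ (n + 1))
    (mul_ne_zero (by exact_mod_cast hAa0) hL0) hcm (by
      intro j _
      by_cases h0 : M.charpoly.coeff j = 0
      · left
        rw [hc]
        simp only
        rw [h0, Int.cast_zero]
      · right
        rw [hc]
        simp only
        exact_mod_cast Int.one_le_abs h0) (by nlinarith) (by
      intro j _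
      refine (hcle j).trans ?_
      apply mul_le_mul _ hpow (by positivity) (by positivity)
      linarith) (by
      refine heigle.trans ?_
      apply mul_le_mul _ hpow1 (by positivity) (by positivity)
      linarith) hsum
  have hAaR : |(Aa : ℝ)| ≤ (H : ℝ) ^ r := by exact_mod_cast hAaH
  rw [abs_mul] at hrb
  have hH1 : (1 : ℝ) ≤ H := by exact_mod_cast hH
  have hT1 : (1 : ℝ) ≤ T := by exact_mod_cast hT
  have h5 : 1 ≤ (H : ℝ) ^ r * |L| * ((m + 1) * ((E + m + 1) * (T0 : ℝ) ^ (n + 1)) ^ (m + 1)) := by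
    refine hrb.trans ?_
    gcongr
  rw [div_le_iff₀ (by positivity)]
  refine h5.trans ?_
  have hT0R' : (T0 : ℝ) = (r + 1) * T * (H : ℝ) ^ (r + D) := by
    rw [hT0]
    push_cast
    ring
  have h6 : (H : ℝ) ^ r * |L| * ((m + 1) * ((E + m + 1) * (T0 : ℝ) ^ (n + 1)) ^ (m + 1)) =
      |L| * (((m + 1) * (E + m + 1) ^ (m + 1) * (r + 1) ^ ((n + 1) * (m + 1))) *
        (H : ℝ) ^ (r + (r + D) * ((n + 1) * (m + 1))) * (T : ℝ) ^ ((n + 1) * (m + 1))) := by
    rw [hT0R', mul_pow (E + m + 1 : ℝ), ← pow_mul, mul_pow, mul_pow, ← pow_mul,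
      pow_add (H : ℝ) r]
    ring
  rw [h6]
  push_cast
  have h7 : (T : ℝ) ^ ((n + 1) * (m + 1)) ≤ (T : ℝ) ^ (r + (r + D) * ((n + 1) * (m + 1))) := by
    apply pow_le_pow_right₀ hT1
    have : 1 * ((n + 1) * (m + 1)) ≤ (r + D) * ((n + 1) * (m + 1)) :=
      Nat.mul_le_mul_right _ (by omega)
    omega
  gcongr

/-- the measure for all algebraic numbers of bounded degree -/
theorem meas_alg (D r : ℕ) (hD : 1 ≤ D) : ∃ κ k E : ℕ, 1 ≤ κ ∧ 1 ≤ E ∧ ∀ (H : ℕ), 1 ≤ H →
    ∀ x : Fin r → ℝ, (∀ i, ∃ P : ℤ[X], P ≠ 0 ∧ P.natDegree ≤ D ∧ (∀ j, |P.coeff j| ≤ H) ∧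
      aeval (x i) P = 0) →
    (∀ (m : ℤ) (g : Fin r → ℤ), (m : ℝ) + ∑ i, (g i : ℝ) * x i = 0 → g = 0) →
    MeasU κ ((E : ℝ) * (H : ℝ) ^ k) x := by
  obtain ⟨κ, E, hκ, hE, hlf⟩ := lin_form D r hD
  refine ⟨κ, κ * (D + 1), E * (r * D + 1) ^ κ, hκ, Nat.mul_pos hE (by positivity), ?_⟩
  intro H hH x hx hli g hg T hT
  have hHz : (1 : ℤ) ≤ H := by exact_mod_cast hH
  choose P hP0 hPD hPH hPx using hx
  choose a β ha0 haH hβ hy using fun i => monic_form D H (P i) (hP0 i) (hPD i) hD (hPH i) (x i) (hPx i)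
  have hT1 : 1 ≤ T := by
    by_contra hcon
    apply hg
    funext i
    have h1 := hT i
    have h2 : T = 0 := by omega
    rw [h2] at h1
    have h3 := abs_nonneg (g i)
    have h4 : |g i| = 0 := by
      push_cast at h1
      omega
    exact abs_eq_zero.1 h4
  have hT1' : (1 : ℝ) ≤ T := by exact_mod_cast hT1
  have hH1 : (1 : ℝ) ≤ H := by exact_mod_cast hH
  have hxle : ∀ i, |x i| ≤ D * (H : ℝ) ^ D := by
    intro i
    have h1 := root_le D hD ((H : ℝ) ^ D) (one_le_pow₀ hH1) ((a i : ℝ) * x i)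
      (fun k => (β i k : ℝ)) (by
        intro k
        exact_mod_cast hβ i k) (hy i)
    rw [abs_mul] at h1
    have h2 : (1 : ℝ) ≤ |(a i : ℝ)| := by exact_mod_cast Int.one_le_abs (ha0 i)
    have h3 := abs_nonneg (x i)
    nlinarith
  obtain ⟨y, hydef⟩ : ∃ y, y = ∑ i, (g i : ℝ) * x i := ⟨_, rfl⟩
  have hyle : |y| ≤ r * (T * (D * (H : ℝ) ^ D)) := by
    rw [hydef]
    refine (Finset.abs_sum_le_sum_abs _ _).trans ?_
    have h1 : ∀ i ∈ (Finset.univ : Finset (Fin r)), |(g i : ℝ) * x i| ≤ T * (D * (H : ℝ) ^ D) := by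
      intro i _
      rw [abs_mul]
      have h4 : |(g i : ℝ)| ≤ T := by exact_mod_cast hT i
      have := hxle i
      gcongr
    refine (Finset.sum_le_sum h1).trans (le_of_eq ?_)
    rw [Finset.sum_const, Finset.card_univ, Fintype.card_fin, nsmul_eq_mul]
  obtain ⟨T1, hT1def⟩ : ∃ T1 : ℕ, T1 = (r * D + 1) * H ^ D * T := ⟨_, rfl⟩
  have hT1T : T ≤ T1 := by
    rw [hT1def]
    apply Nat.le_mul_of_pos_left
    positivity
  obtain ⟨g', hg'⟩ : ∃ g' : Option (Fin r) → ℤ, g' = fun o => match o with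
    | none => -round y
    | some i => g i := ⟨_, rfl⟩
  have hval : ((g' none : ℤ) : ℝ) + ∑ i, ((g' (some i) : ℤ) : ℝ) * x i = y - round y := by
    rw [hg', hydef]
    push_cast
    ring
  have hne : ((g' none : ℤ) : ℝ) + ∑ i, ((g' (some i) : ℤ) : ℝ) * x i ≠ 0 := by
    intro h0
    have h1 := hli (g' none) (fun i => g' (some i)) h0
    apply hg
    funext i
    have := congrFun h1 i
    rw [hg'] at this
    exact this
  have h1 := hlf H hH a β x ha0 haH hβ hy g' hne T1 (hT1.trans hT1T) (by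
    intro o
    rw [hg']
    cases o with
    | none =>
      simp only
      rw [abs_neg]
      have h2 : |(round y : ℝ)| ≤ T1 := by
        have h3 := abs_sub_round y
        have h4 : |(round y : ℝ)| ≤ |y| + 1 := by
          have h5 : (round y : ℝ) = y - (y - round y) := by ring
          rw [h5]
          refine (abs_sub _ _).trans ?_
          linarith
        have h5 : (T1 : ℝ) = r * (T * (D * (H : ℝ) ^ D)) + (H : ℝ) ^ D * T := by
          rw [hT1def]
          push_cast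
          ring
        have h6 : (1 : ℝ) ≤ (H : ℝ) ^ D * T := by
          have : (1 : ℝ) ≤ (H : ℝ) ^ D := one_le_pow₀ hH1
          nlinarith
        linarith
      exact_mod_cast h2
    | some i =>
      simp only
      have h2 := hT i
      have h3 : (T : ℤ) ≤ (T1 : ℤ) := by exact_mod_cast hT1T
      linarith)
  rw [hval] at h1
  rw [← hydef]
  unfold dz
  refine le_trans (le_of_eq ?_) h1
  rw [div_div, hT1def]
  push_cast
  congr 1
  rw [mul_pow, mul_pow, mul_add, mul_one, pow_add, ← pow_mul, mul_comm D κ]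
  ring

end Run7.h683.OB
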