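import Pool.Agent.Run7.h683.OB.N3
import Pool.Agent.Run7.h683.OB.N5

/-!
# One base for all algebraic numbers: the union over all algebraic numbers of small height
-/

set_option autoImplicit false

namespace Run7.h683.OB

open Finset Polynomial Filter Run7.h683.AB
open Pool.Agent.Y957.VK

/-- the integer polynomials of degree at most `D` with coefficients at most `H` -/
noncomputable def polys (D H : ℕ) : Finset ℤ[X] :=
  (Fintype.piFinset (fun _ : Fin (D + 1) => Finset.Icc (-(H : ℤ)) H)).image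
    fun c => ∑ j : Fin (D + 1), monomial (j : ℕ) (c j)

theorem mem_polys {D H : ℕ} {P : ℤ[X]} (hD : P.natDegree ≤ D) (hH : ∀ j, |P.coeff j| ≤ H) :
    P ∈ polys D H := by
  unfold polys
  rw [Finset.mem_image]
  refine ⟨fun j => P.coeff j, ?_, ?_⟩
  · rw [Fintype.mem_piFinset]
    intro j
    rw [Finset.mem_Icc]
    exact abs_le.1 (hH j)
  · rw [Fin.sum_univ_eq_sum_range (fun j => monomial j (P.coeff j)) (D + 1)]
    exact (as_sum_range' P (D + 1) (by omega)).symm

theorem card_polys (D H : ℕ) : (polys D H).card ≤ (2 * H + 1) ^ (D + 1) := by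
  unfold polys
  refine Finset.card_image_le.trans ?_
  rw [Fintype.card_piFinset, Finset.prod_const, Finset.card_univ, Fintype.card_fin, Int.card_Icc]
  apply Nat.pow_le_pow_left
  omega

theorem natDegree_polys {D H : ℕ} {P : ℤ[X]} (hP : P ∈ polys D H) : P.natDegree ≤ D := by
  unfold polys at hP
  rw [Finset.mem_image] at hP
  obtain ⟨c, _, rfl⟩ := hP
  apply natDegree_sum_le_of_forall_le
  intro j _
  refine (natDegree_monomial_le _).trans ?_
  have := j.2
  omega

/-- the real roots of these polynomials -/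
noncomputable def realRoots (D H : ℕ) : Finset ℝ :=
  (polys D H).biUnion fun P => (P.map (Int.castRingHom ℝ)).roots.toFinset

theorem mem_realRoots {D H : ℕ} {P : ℤ[X]} (hP : P ≠ 0) (hD : P.natDegree ≤ D)
    (hH : ∀ j, |P.coeff j| ≤ H) {x : ℝ} (hx : aeval x P = 0) : x ∈ realRoots D H := by
  unfold realRoots
  rw [Finset.mem_biUnion]
  refine ⟨P, mem_polys hD hH, ?_⟩
  rw [Multiset.mem_toFinset, mem_roots, IsRoot.def, eval_map]
  · rw [aeval_def] at hx
    exact hx
  · rw [Ne, Polynomial.map_eq_zero_iff (RingHom.injective_int _)]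
    exact hP

theorem card_realRoots (D H : ℕ) : (realRoots D H).card ≤ (2 * H + 1) ^ (D + 1) * D := by
  unfold realRoots
  refine Finset.card_biUnion_le.trans ?_
  calc ∑ P ∈ polys D H, ((P.map (Int.castRingHom ℝ)).roots.toFinset).card ≤
      ∑ P ∈ polys D H, D := by
        refine Finset.sum_le_sum fun P hP => ?_
        refine (Multiset.toFinset_card_le _).trans ((card_roots' _).trans ?_)
        exact (natDegree_map_le).trans (natDegree_polys hP)
    _ = (polys D H).card * D := by rw [Finset.sum_const, smul_eq_mul]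
    _ ≤ (2 * H + 1) ^ (D + 1) * D := Nat.mul_le_mul_right _ (card_polys D H)

/-- `x` is a family of real numbers of degree at most `D` and height at most `Y`, linearly independent
over the rational numbers together with `1` -/
def AlgFam {r : ℕ} (D : ℕ) (Y : ℝ) (x : Fin r → ℝ) : Prop :=
  (∀ i, ∃ P : ℤ[X], P ≠ 0 ∧ P.natDegree ≤ D ∧ (∀ j, |(P.coeff j : ℝ)| ≤ Y) ∧ aeval (x i) P = 0) ∧
  ∀ (m : ℤ) (g : Fin r → ℤ), (m : ℝ) + ∑ i, (g i : ℝ) * x i = 0 → g = 0

open Classical in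
/-- the number of the windows before `K` which read `v` -/
noncomputable def occ {r : ℕ} (q L : ℕ) (x : Fin r → ℝ) (b K : ℕ) (v : Fin r → ℕ → ℕ) : ℕ :=
  ((Finset.range K).filter fun s => ∀ i, ∀ t < L, q * digit b (x i) (s + t + 2) / b = v i t).card

open Classical in
theorem final : ∃ d : ℝ, 0 < d ∧ ∀ (D r q L : ℕ), 1 ≤ q → 1 ≤ L → ∀ ε : ℝ, 0 < ε →
    ∀ᶠ B : ℕ in atTop, (((Finset.Ioc 0 B).filter fun b : ℕ => ¬ ∀ x : Fin r → ℝ,
      AlgFam D (Real.exp (Real.log b ^ d)) x → ∀ v : Fin r → Fin L → Fin q, ∀ K : ℕ,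
      Real.log b ^ (2 * d) ≤ K → (K : ℝ) ≤ Real.log b ^ (4 * d) →
      |(occ q L x b K (fun i t => if h : t < L then ((v i ⟨t, h⟩ : Fin q) : ℕ) else 0) : ℝ) -
        K / (q : ℝ) ^ (r * L)| ≤ ε * K).card : ℝ) ≤ B * Real.exp (-(Real.log B ^ d)) := by
  obtain ⟨d, hd0, hd1, hfreq⟩ := freqU
  refine ⟨d, hd0, ?_⟩
  intro D0 r q L hq hL ε0 hε0
  -- normalisations
  obtain ⟨D, hD⟩ : ∃ D : ℕ, D = D0 + 1 := ⟨_, rfl⟩
  obtain ⟨ε, hε⟩ : ∃ ε : ℝ, ε = min ε0 1 := ⟨_, rfl⟩
  have hε1 : 0 < ε := by rw [hε]; exact lt_min hε0 one_pos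
  have hε2 : ε ≤ 1 := by rw [hε]; exact min_le_right _ _
  have hε3 : ε ≤ ε0 := by rw [hε]; exact min_le_left _ _
  obtain ⟨κ, k, E, hκ, hE, hmeas⟩ := meas_alg D r (by omega)
  obtain ⟨C, hC⟩ : ∃ C : ℝ, C = (r : ℝ) * (((D : ℝ) + 1) * 3 + D) + q * r * L + 2 := ⟨_, rfl⟩
  have hlog : Tendsto (fun N : ℕ => Real.log (N : ℝ)) atTop atTop :=
    Real.tendsto_log_atTop.comp tendsto_natCast_atTop_atTop
  have ev : ∀ᶠ t : ℝ in atTop, 1 ≤ t ∧ (E + k : ℝ) * t ^ d ≤ t ^ (1 / 2 : ℝ) ∧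
      C * t ^ d ≤ t ^ (4 / 3 * d) ∧ 4 * t ^ d ≤ t ^ (1 : ℝ) ∧ 4 ≤ t ^ (2 / 5 * d) := by
    filter_upwards [eventually_ge_atTop 1, ev_lt (a := d) (b := 1 / 2) (by linarith) (E + k),
      ev_lt (a := d) (b := 4 / 3 * d) (by linarith) C,
      ev_lt (a := d) (b := 1) (by linarith) 4,
      ev_const (b := 2 / 5 * d) (by linarith) 4] with t h1 h2 h3 h4 h5
    exact ⟨h1, h2, h3, h4, h5⟩
  filter_upwards [hlog.eventually ev, hfreq r κ hκ q L hq hL ε hε1 hε2,
    eventually_ge_atTop 1] with B hev hf hB1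
  obtain ⟨ht1, e1, e2, e3, e4⟩ := hev
  obtain ⟨t, ht⟩ : ∃ t, t = Real.log B := ⟨_, rfl⟩
  rw [← ht] at ht1 e1 e2 e3 e4 hf ⊢
  rw [Real.rpow_one] at e3
  have ht0 : 0 < t := by linarith
  have hB0 : (0 : ℝ) < B := by exact_mod_cast hB1
  have hBt : (B : ℝ) = Real.exp t := by rw [ht, Real.exp_log hB0]
  have htd : 1 ≤ t ^ d := Real.one_le_rpow ht1 hd0.le
  obtain ⟨H, hH⟩ : ∃ H : ℕ, H = ⌊Real.exp (t ^ d)⌋₊ := ⟨_, rfl⟩
  have hHle : (H : ℝ) ≤ Real.exp (t ^ d) := by
    rw [hH]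
    exact Nat.floor_le (Real.exp_pos _).le
  have hH1 : 1 ≤ H := by
    rw [hH]
    apply Nat.le_floor
    push_cast
    exact Real.one_le_exp (by linarith)
  have hH1' : (1 : ℝ) ≤ H := by exact_mod_cast hH1
  have hE1 : (1 : ℝ) ≤ E := by exact_mod_cast hE
  have hM1 : (1 : ℝ) ≤ (E : ℝ) * (H : ℝ) ^ k := by
    have : (1 : ℝ) ≤ (H : ℝ) ^ k := one_le_pow₀ hH1'
    nlinarith
  have hM2 : (E : ℝ) * (H : ℝ) ^ k ≤ Real.exp (t ^ (1 / 2 : ℝ)) := by
    calc (E : ℝ) * (H : ℝ) ^ k ≤ Real.exp E * Real.exp (t ^ d) ^ k := by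
          have : (E : ℝ) ≤ Real.exp E := by
            have := Real.add_one_le_exp (E : ℝ)
            linarith
          gcongr
      _ = Real.exp (E + k * t ^ d) := by
          rw [← Real.exp_nat_mul, ← Real.exp_add]
      _ ≤ Real.exp (t ^ (1 / 2 : ℝ)) := by
          apply Real.exp_le_exp.2
          have : (E : ℝ) ≤ E * t ^ d := by nlinarith
          nlinarith
  -- the families
  obtain ⟨XX, hXX⟩ : ∃ XX : Finset (Fin r → ℝ), XX = (Fintype.piFinset fun _ : Fin r =>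
      realRoots D H).filter fun x => MeasU κ ((E : ℝ) * (H : ℝ) ^ k) x := ⟨_, rfl⟩
  have hXXcard : (XX.card : ℝ) ≤ Real.exp ((r : ℝ) * ((D + 1) * 3 + D) * t ^ d) := by
    have h1 : XX.card ≤ ((2 * H + 1) ^ (D + 1) * D) ^ r := by
      rw [hXX]
      refine (Finset.card_filter_le _ _).trans ?_
      rw [Fintype.card_piFinset, Finset.prod_const, Finset.card_univ, Fintype.card_fin]
      exact Nat.pow_le_pow_left (card_realRoots D H) r
    have h2 : (XX.card : ℝ) ≤ ((2 * (H : ℝ) + 1) ^ (D + 1) * D) ^ r := by exact_mod_cast h1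
    refine h2.trans ?_
    have h3 : 2 * (H : ℝ) + 1 ≤ Real.exp (3 * t ^ d) := by
      have h4 : (3 : ℝ) ≤ Real.exp 2 := by
        have := Real.add_one_le_exp (2 : ℝ)
        linarith
      calc 2 * (H : ℝ) + 1 ≤ 3 * H := by linarith
        _ ≤ Real.exp 2 * Real.exp (t ^ d) := by gcongr
        _ = Real.exp (2 + t ^ d) := by rw [← Real.exp_add]
        _ ≤ Real.exp (3 * t ^ d) := Real.exp_le_exp.2 (by linarith)
    have h4 : (D : ℝ) ≤ Real.exp (D * t ^ d) := by
      have h5 := Real.add_one_le_exp ((D : ℝ) * t ^ d)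
      have h6 : (D : ℝ) ≤ D * t ^ d := by
        have : (0 : ℝ) ≤ D := Nat.cast_nonneg D
        nlinarith
      linarith
    calc ((2 * (H : ℝ) + 1) ^ (D + 1) * D) ^ r ≤
        (Real.exp (3 * t ^ d) ^ (D + 1) * Real.exp (D * t ^ d)) ^ r := by gcongr
      _ = Real.exp ((r : ℝ) * ((D + 1) * 3 + D) * t ^ d) := by
          rw [← Real.exp_nat_mul, ← Real.exp_add, ← Real.exp_nat_mul]
          congr 1
          push_cast
          ring
  obtain ⟨bad, hbad⟩ : ∃ bad : (Fin r → ℝ) → (Fin r → Fin L → Fin q) → Finset ℕ, bad = fun x v =>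
      (Finset.Ioc 0 B).filter fun b => ∃ K : ℕ, t ^ (8 / 5 * d) ≤ K ∧
      (K : ℝ) ≤ t ^ (4 * d) ∧ ε * K < |(((Finset.range K).filter fun s => ∀ i, ∀ t < L,
        q * digit b (x i) (s + t + 2) / b =
          (if h : t < L then ((v i ⟨t, h⟩ : Fin q) : ℕ) else 0)).card : ℝ) -
        K / (q : ℝ) ^ (r * L)| := ⟨_, rfl⟩
  have hbadcard : ∀ x ∈ XX, ∀ v : Fin r → Fin L → Fin q, ((bad x v).card : ℝ) ≤
      B * Real.exp (-(t ^ (4 / 3 * d))) := by
    intro x hx v
    rw [hXX, Finset.mem_filter] at hx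
    rw [hbad]
    exact hf _ x hM1 hM2 hx.2 (fun i t => if h : t < L then ((v i ⟨t, h⟩ : Fin q) : ℕ) else 0) (by
      intro i t ht
      rw [dif_pos ht]
      exact (v i ⟨t, ht⟩).2)
  have hsub : ((Finset.Ioc 0 B).filter fun b : ℕ => ¬ ∀ x : Fin r → ℝ,
      AlgFam D0 (Real.exp (Real.log b ^ d)) x → ∀ v : Fin r → Fin L → Fin q, ∀ K : ℕ,
      Real.log b ^ (2 * d) ≤ K → (K : ℝ) ≤ Real.log b ^ (4 * d) →
      |(occ q L x b K (fun i t => if h : t < L then ((v i ⟨t, h⟩ : Fin q) : ℕ) else 0) : ℝ) -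
        K / (q : ℝ) ^ (r * L)| ≤ ε0 * K) ⊆
      (Finset.Ioc 0 ⌊Real.exp (t / 2)⌋₊) ∪ XX.biUnion fun x => Finset.univ.biUnion fun v => bad x v := by
    intro b hb
    rw [Finset.mem_filter, Finset.mem_Ioc] at hb
    obtain ⟨⟨hb0, hbB⟩, hnot⟩ := hb
    rw [Finset.mem_union]
    by_cases hsmall : (b : ℝ) ≤ Real.exp (t / 2)
    · left
      rw [Finset.mem_Ioc]
      exact ⟨hb0, Nat.le_floor hsmall⟩
    right
    push Not at hsmall
    push Not at hnot
    obtain ⟨x, hx, v, K, hK1, hK2, hdev⟩ := hnot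
    have hb0' : (0 : ℝ) < b := by exact_mod_cast hb0
    have hlogb1 : t / 2 ≤ Real.log b := by
      rw [Real.le_log_iff_exp_le hb0']
      exact hsmall.le
    have hlogb2 : Real.log b ≤ t := by
      rw [ht]
      apply Real.log_le_log hb0'
      exact_mod_cast hbB
    have hlogb0 : 0 < Real.log b := by linarith
    have hle : Real.log b ^ d ≤ t ^ d := Real.rpow_le_rpow hlogb0.le hlogb2 hd0.le
    have hxX : x ∈ XX := by
      have hP : ∀ i, ∃ P : ℤ[X], P ≠ 0 ∧ P.natDegree ≤ D ∧ (∀ j, |P.coeff j| ≤ H) ∧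
          aeval (x i) P = 0 := by
        intro i
        obtain ⟨P, h1, h2, h3, h4⟩ := hx.1 i
        refine ⟨P, h1, by omega, fun j => ?_, h4⟩
        have h5 : ((P.coeff j).natAbs : ℝ) ≤ Real.exp (t ^ d) := by
          rw [Nat.cast_natAbs, Int.cast_abs]
          exact (h3 j).trans (Real.exp_le_exp.2 hle)
        have h6 : (P.coeff j).natAbs ≤ H := by
          rw [hH]
          exact Nat.le_floor h5
        rw [Int.abs_eq_natAbs]
        exact_mod_cast h6
      rw [hXX, Finset.mem_filter, Fintype.mem_piFinset]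
      refine ⟨fun i => ?_, hmeas H hH1 x hP hx.2⟩
      obtain ⟨P, h1, h2, h3, h4⟩ := hP i
      exact mem_realRoots h1 h2 h3 h4
    rw [Finset.mem_biUnion]
    refine ⟨x, hxX, ?_⟩
    rw [Finset.mem_biUnion]
    refine ⟨v, Finset.mem_univ _, ?_⟩
    rw [hbad, Finset.mem_filter, Finset.mem_Ioc]
    refine ⟨⟨hb0, hbB⟩, K, ?_, ?_, ?_⟩
    · refine le_trans ?_ hK1
      have h1 : (t / 2) ^ (2 * d) ≤ Real.log b ^ (2 * d) :=
        Real.rpow_le_rpow (by linarith) hlogb1 (by linarith)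
      refine le_trans ?_ h1
      rw [Real.div_rpow ht0.le (by norm_num), le_div_iff₀ (by positivity)]
      have h2 : t ^ (2 * d) = t ^ (8 / 5 * d) * t ^ (2 / 5 * d) := by
        rw [← Real.rpow_add ht0]
        congr 1
        ring
      rw [h2]
      have h3 : (2 : ℝ) ^ (2 * d) ≤ 4 := by
        calc (2 : ℝ) ^ (2 * d) ≤ (2 : ℝ) ^ (2 : ℝ) :=
              Real.rpow_le_rpow_of_exponent_le (by norm_num) (by linarith)
          _ = 4 := by norm_num
      have h4 : 0 ≤ t ^ (8 / 5 * d) := Real.rpow_nonneg ht0.le _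
      exact mul_le_mul_of_nonneg_left (h3.trans e4) h4
    · exact hK2.trans (Real.rpow_le_rpow hlogb0.le hlogb2 (by linarith))
    · refine lt_of_le_of_lt ?_ hdev
      gcongr
  have h1 := Finset.card_le_card hsub
  have h2 := h1.trans (Finset.card_union_le _ _)
  have h3 : ((XX.biUnion fun x => Finset.univ.biUnion fun v => bad x v).card : ℝ) ≤
      XX.card * ((q : ℝ) ^ (L * r) * (B * Real.exp (-(t ^ (4 / 3 * d))))) := by
    have h4 := Finset.card_biUnion_le (s := XX) (t := fun x => Finset.univ.biUnion fun v => bad x v)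
    refine le_trans ((Nat.cast_le (α := ℝ)).2 h4) ?_
    push_cast
    have h5 : ∀ x ∈ XX, ((Finset.univ.biUnion fun v => bad x v).card : ℝ) ≤
        (q : ℝ) ^ (L * r) * (B * Real.exp (-(t ^ (4 / 3 * d)))) := by
      intro x hx
      have h6 := Finset.card_biUnion_le (s := (Finset.univ : Finset (Fin r → Fin L → Fin q)))
        (t := fun v => bad x v)
      refine le_trans ((Nat.cast_le (α := ℝ)).2 h6) ?_
      push_cast
      refine (Finset.sum_le_sum fun v _ => hbadcard x hx v).trans (le_of_eq ?_)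
      rw [Finset.sum_const, nsmul_eq_mul, Finset.card_univ, Fintype.card_fun, Fintype.card_fun,
        Fintype.card_fin, Fintype.card_fin, Fintype.card_fin]
      push_cast
      rw [← pow_mul]
    refine (Finset.sum_le_sum h5).trans (le_of_eq ?_)
    rw [Finset.sum_const, nsmul_eq_mul]
  have h4 : ((Finset.Ioc 0 ⌊Real.exp (t / 2)⌋₊).card : ℝ) ≤ Real.exp (t / 2) := by
    rw [Nat.card_Ioc, Nat.sub_zero]
    exact Nat.floor_le (Real.exp_pos _).le
  have hhalf : Real.exp (-(1 : ℝ)) ≤ 1 / 2 := by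
    rw [Real.exp_neg]
    have : (2 : ℝ) ≤ Real.exp 1 := by
      have := Real.add_one_le_exp (1 : ℝ)
      linarith
    rw [inv_le_comm₀ (Real.exp_pos _) (by norm_num)]
    simpa using this
  have h5 : Real.exp (t / 2) ≤ B * Real.exp (-(t ^ d)) * (1 / 2) := by
    calc Real.exp (t / 2) ≤ Real.exp (t + -(t ^ d) + -1) := by
          apply Real.exp_le_exp.2
          linarith
      _ = B * Real.exp (-(t ^ d)) * Real.exp (-1) := by
          rw [Real.exp_add, Real.exp_add, hBt]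
      _ ≤ B * Real.exp (-(t ^ d)) * (1 / 2) := by gcongr
  have h6 : (XX.card : ℝ) * ((q : ℝ) ^ (L * r) * (B * Real.exp (-(t ^ (4 / 3 * d))))) ≤
      B * Real.exp (-(t ^ d)) * (1 / 2) := by
    have h7 : (q : ℝ) ^ (L * r) ≤ Real.exp (q * r * L * t ^ d) := by
      calc (q : ℝ) ^ (L * r) ≤ Real.exp q ^ (L * r) := by
            have : (q : ℝ) ≤ Real.exp q := by
              have := Real.add_one_le_exp (q : ℝ)
              linarith
            gcongr
        _ = Real.exp (((L * r : ℕ) : ℝ) * q) := by rw [← Real.exp_nat_mul]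
        _ ≤ Real.exp (q * r * L * t ^ d) := by
            apply Real.exp_le_exp.2
            push_cast
            have h8 : (0 : ℝ) ≤ q * r * L := by positivity
            nlinarith
    calc (XX.card : ℝ) * ((q : ℝ) ^ (L * r) * (B * Real.exp (-(t ^ (4 / 3 * d))))) ≤
        Real.exp ((r : ℝ) * ((D + 1) * 3 + D) * t ^ d) * (Real.exp (q * r * L * t ^ d) *
          (B * Real.exp (-(t ^ (4 / 3 * d))))) := by gcongr
      _ = B * Real.exp ((r : ℝ) * ((D + 1) * 3 + D) * t ^ d + q * r * L * t ^ d +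
          -(t ^ (4 / 3 * d))) := by
          rw [Real.exp_add, Real.exp_add]
          ring
      _ ≤ B * Real.exp (-(t ^ d) + -1) := by
          apply mul_le_mul_of_nonneg_left _ hB0.le
          apply Real.exp_le_exp.2
          rw [hC] at e2
          nlinarith
      _ = B * Real.exp (-(t ^ d)) * Real.exp (-1) := by
          rw [Real.exp_add]
          ring
      _ ≤ B * Real.exp (-(t ^ d)) * (1 / 2) := by gcongr
  refine le_trans ((Nat.cast_le (α := ℝ)).2 h2) ?_
  push_cast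
  linarith

end Run7.h683.OB
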